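import Mathlib

set_option autoImplicit false

open MeasureTheory Set Filter Topology
open scoped ENNReal

namespace Pool.Agent.H719R2.Sec

/-- A bounded measurable real function is integrable on a probability space. -/
theorem integrable_bdd {X : Type*} [MeasurableSpace X] {P : Measure X} [IsFiniteMeasure P]
    {f : X → ℝ} (hf : Measurable f) (K : ℝ) (hK : ∀ x, |f x| ≤ K) : Integrable f P :=
  Integrable.of_bound hf.aestronglyMeasurable K (Eventually.of_forall fun x => by
    rw [Real.norm_eq_abs]; exact hK x)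

/-- The probability measure with density `2 s` on `(0, 1]`. -/
noncomputable def lam : Measure ℝ :=
  (volume.restrict (Ioc (0 : ℝ) 1)).withDensity (fun s => ENNReal.ofReal (2 * s))

instance : IsProbabilityMeasure lam := by
  constructor
  unfold lam
  rw [withDensity_apply _ MeasurableSet.univ, Measure.restrict_univ]
  have h1 : ∫⁻ s in Ioc (0 : ℝ) 1, ENNReal.ofReal (2 * s) =
      ENNReal.ofReal (∫ s in Ioc (0 : ℝ) 1, 2 * s) := by
    rw [ofReal_integral_eq_lintegral_ofReal]
    · have : IntervalIntegrable (fun s : ℝ => 2 * s) volume 0 1 :=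
        (by fun_prop : Continuous (fun s : ℝ => 2 * s)).intervalIntegrable 0 1
      exact (intervalIntegrable_iff_integrableOn_Ioc_of_le zero_le_one).1 this
    · rw [EventuallyLE, ae_restrict_iff' measurableSet_Ioc]
      exact Eventually.of_forall fun s hs => by
        have := hs.1
        simp only [Pi.zero_apply]
        positivity
  rw [h1, ← intervalIntegral.integral_of_le zero_le_one, intervalIntegral.integral_const_mul,
    integral_id]
  norm_num

theorem lam_le (S : Set ℝ) : lam S ≤ 2 * volume S := by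
  unfold lam
  have hle : (volume.restrict (Ioc (0 : ℝ) 1)).withDensity (fun s => ENNReal.ofReal (2 * s)) ≤
      (volume.restrict (Ioc (0 : ℝ) 1)).withDensity (fun _ => 2) := by
    refine withDensity_mono ?_
    rw [EventuallyLE, ae_restrict_iff' measurableSet_Ioc]
    refine Eventually.of_forall fun s hs => ?_
    calc ENNReal.ofReal (2 * s) ≤ ENNReal.ofReal 2 := ENNReal.ofReal_le_ofReal (by linarith [hs.2])
      _ = 2 := by norm_num
  refine (hle S).trans ?_
  rw [withDensity_const]
  simp only [Measure.smul_apply, smul_eq_mul]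
  exact mul_le_mul_right (Measure.restrict_le_self S) 2

theorem lam_ae : ∀ᵐ s ∂lam, s ∈ Ioc (0 : ℝ) 1 := by
  unfold lam
  refine (withDensity_absolutelyContinuous _ _).ae_le ?_
  exact ae_restrict_mem measurableSet_Ioc

/-- the probability space of (radius, slope) -/
noncomputable def nu (μ : Measure ℝ) : Measure (ℝ × ℝ) := lam.prod μ

instance (μ : Measure ℝ) [IsProbabilityMeasure μ] : IsProbabilityMeasure (nu μ) := by
  unfold nu; infer_instance

/-- the box containing almost all parameters -/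
def Bx : Set (ℝ × ℝ) := Ioc 0 1 ×ˢ Icc 0 1

theorem nu_ae (μ : Measure ℝ) [IsProbabilityMeasure μ] (hμ : ∀ᵐ a ∂μ, a ∈ Icc (0 : ℝ) 1) :
    ∀ᵐ p ∂(nu μ), p ∈ Bx := by
  unfold nu Bx
  have h1 : ∀ᵐ p ∂(lam.prod μ), p.1 ∈ Ioc (0 : ℝ) 1 :=
    Measure.quasiMeasurePreserving_fst.ae lam_ae
  have h2 : ∀ᵐ p ∂(lam.prod μ), p.2 ∈ Icc (0 : ℝ) 1 :=
    Measure.quasiMeasurePreserving_snd.ae hμ
  filter_upwards [h1, h2] with p hp1 hp2
  exact ⟨hp1, hp2⟩

/-- the set of close pairs of parameters -/
def close (t : ℝ) : Set ((ℝ × ℝ) × (ℝ × ℝ)) := {q | |q.1.1 - q.2.1| < t}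

theorem measurableSet_close (t : ℝ) : MeasurableSet (close t) := by
  unfold close
  exact measurableSet_lt (by fun_prop) measurable_const

theorem close_le (μ : Measure ℝ) [IsProbabilityMeasure μ] (t : ℝ) (ht : 0 ≤ t) :
    ((nu μ).prod (nu μ)).real (close t) ≤ 4 * t := by
  have h : ((nu μ).prod (nu μ)) (close t) ≤ ENNReal.ofReal (4 * t) := by
    rw [Measure.prod_apply (measurableSet_close t)]
    have hb : ∀ p : ℝ × ℝ, (nu μ) (Prod.mk p ⁻¹' close t) ≤ ENNReal.ofReal (4 * t) := by
      intro p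
      have hsub : Prod.mk p ⁻¹' close t ⊆ (Ioo (p.1 - t) (p.1 + t)) ×ˢ (univ : Set ℝ) := by
        intro q hq
        simp only [close, mem_preimage, mem_ofPred_eq] at hq
        rw [abs_lt] at hq
        exact ⟨⟨by linarith, by linarith⟩, mem_univ _⟩
      refine (measure_mono hsub).trans ?_
      unfold nu
      rw [Measure.prod_prod, measure_univ, mul_one]
      refine (lam_le _).trans ?_
      rw [Real.volume_Ioo]
      have : (2 : ℝ≥0∞) = ENNReal.ofReal 2 := by norm_num
      rw [this, ← ENNReal.ofReal_mul (by norm_num)]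
      exact ENNReal.ofReal_le_ofReal (by linarith)
    refine (lintegral_mono hb).trans ?_
    simp
  rw [measureReal_def]
  exact ENNReal.toReal_le_of_le_ofReal (by positivity) h

/-- **Chebyshev's inequality for averages of a random field with few correlated pairs.** -/
theorem cheb {Ω X : Type*} [MeasurableSpace Ω] [MeasurableSpace X] (P : Measure Ω)
    [IsProbabilityMeasure P] (ν : Measure X) [IsProbabilityMeasure ν] (U : Ω → X → ℝ)
    (hU : Measurable (fun q : Ω × X => U q.1 q.2)) (K : ℝ) (hK : ∀ ω x, |U ω x| ≤ K)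
    (Bs : Set X) (hB : ∀ᵐ p ∂ν, p ∈ Bs)
    (S : Set (X × X)) (hS : MeasurableSet S)
    (h0 : ∀ p ∈ Bs, ∀ q ∈ Bs, (p, q) ∉ S → ∫ ω, U ω p * U ω q ∂P = 0)
    (t : ℝ) (ht : 0 < t) :
    P.real {ω | t ≤ |∫ p, U ω p ∂ν|} ≤ K ^ 2 * (ν.prod ν).real S / t ^ 2 := by
  have hI : Measurable (fun ω => ∫ p, U ω p ∂ν) := by
    have := (hU.stronglyMeasurable.integral_prod_right (ν := ν))
    exact this.measurable
  have hUω : ∀ ω, Measurable (U ω) := fun ω => hU.comp measurable_prodMk_left
  have hIb : ∀ ω, |∫ p, U ω p ∂ν| ≤ K := by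
    intro ω
    have := norm_integral_le_of_norm_le_const (μ := ν) (f := U ω) (C := K)
      (Eventually.of_forall fun p => by rw [Real.norm_eq_abs]; exact hK ω p)
    simpa using this
  have hK0 : 0 ≤ K := by
    have : Nonempty Ω := by
      by_contra h
      rw [not_nonempty_iff] at h
      have := measure_univ (μ := P)
      rw [univ_eq_empty_iff.2 h, measure_empty] at this
      exact zero_ne_one this
    exact (abs_nonneg _).trans (hIb this.some)
  -- second moment
  have hsq : ∀ ω, (∫ p, U ω p ∂ν) ^ 2 = ∫ q : X × X, U ω q.1 * U ω q.2 ∂(ν.prod ν) := by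
    intro ω
    rw [integral_prod_mul, sq]
  have hm2 : Measurable (fun q : Ω × (X × X) => U q.1 q.2.1 * U q.1 q.2.2) := by
    have h1 : Measurable (fun q : Ω × (X × X) => U q.1 q.2.1) :=
      hU.comp (measurable_fst.prodMk (measurable_fst.comp measurable_snd))
    have h2 : Measurable (fun q : Ω × (X × X) => U q.1 q.2.2) :=
      hU.comp (measurable_fst.prodMk (measurable_snd.comp measurable_snd))
    exact h1.mul h2
  have hb2 : ∀ q : Ω × (X × X), |U q.1 q.2.1 * U q.1 q.2.2| ≤ K ^ 2 := by
    intro q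
    rw [abs_mul, sq]
    exact mul_le_mul (hK _ _) (hK _ _) (abs_nonneg _) hK0
  have hfub : ∫ ω, (∫ p, U ω p ∂ν) ^ 2 ∂P =
      ∫ q : X × X, (∫ ω, U ω q.1 * U ω q.2 ∂P) ∂(ν.prod ν) := by
    simp_rw [hsq]
    exact integral_integral_swap (integrable_bdd hm2 (K ^ 2) hb2)
  have hbound : ∫ q : X × X, (∫ ω, U ω q.1 * U ω q.2 ∂P) ∂(ν.prod ν) ≤
      K ^ 2 * (ν.prod ν).real S := by
    have hae : ∀ᵐ q ∂(ν.prod ν), q.1 ∈ Bs ∧ q.2 ∈ Bs := by
      filter_upwards [Measure.quasiMeasurePreserving_fst.ae hB,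
        Measure.quasiMeasurePreserving_snd.ae hB] with q h1 h2
      exact ⟨h1, h2⟩
    have hle : ∀ᵐ q ∂(ν.prod ν), (∫ ω, U ω q.1 * U ω q.2 ∂P) ≤ S.indicator (fun _ => K ^ 2) q := by
      filter_upwards [hae] with q hq
      by_cases hqS : q ∈ S
      · rw [indicator_of_mem hqS]
        have := norm_integral_le_of_norm_le_const (μ := P) (f := fun ω => U ω q.1 * U ω q.2)
          (C := K ^ 2) (Eventually.of_forall fun ω => by
            rw [Real.norm_eq_abs]; exact hb2 (ω, q))
        rw [probReal_univ, mul_one, Real.norm_eq_abs] at this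
        exact (le_abs_self _).trans this
      · rw [indicator_of_notMem hqS, h0 q.1 hq.1 q.2 hq.2 hqS]
    have hmeas : Measurable (fun q : X × X => ∫ ω, U ω q.1 * U ω q.2 ∂P) := by
      have hm3 : Measurable (fun q : (X × X) × Ω => U q.2 q.1.1 * U q.2 q.1.2) :=
        hm2.comp measurable_swap
      exact (hm3.stronglyMeasurable.integral_prod_right (ν := P)).measurable
    have hi1 : Integrable (fun q : X × X => ∫ ω, U ω q.1 * U ω q.2 ∂P) (ν.prod ν) := by
      refine integrable_bdd hmeas (K ^ 2) fun q => ?_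
      have := norm_integral_le_of_norm_le_const (μ := P) (f := fun ω => U ω q.1 * U ω q.2)
          (C := K ^ 2) (Eventually.of_forall fun ω => by
            rw [Real.norm_eq_abs]; exact hb2 (ω, q))
      rwa [probReal_univ, mul_one, Real.norm_eq_abs] at this
    refine (integral_mono_ae hi1 ?_ hle).trans ?_
    · exact (integrable_const _).indicator hS
    · rw [integral_indicator_const _ hS, smul_eq_mul, mul_comm]
  -- Markov
  have hmark := mul_meas_ge_le_integral_of_nonneg (μ := P)
    (f := fun ω => (∫ p, U ω p ∂ν) ^ 2) (Eventually.of_forall fun ω => sq_nonneg _)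
    (integrable_bdd (hI.pow_const 2) (K ^ 2) fun ω => by
      rw [abs_pow]; exact pow_le_pow_left₀ (abs_nonneg _) (hIb ω) 2) (t ^ 2)
  have hset : {ω | t ^ 2 ≤ (∫ p, U ω p ∂ν) ^ 2} = {ω | t ≤ |∫ p, U ω p ∂ν|} := by
    ext ω
    simp only [mem_ofPred_eq]
    rw [sq_le_sq, abs_of_pos ht]
  rw [hset, hfub] at hmark
  rw [le_div_iff₀ (by positivity)]
  calc P.real {ω | t ≤ |∫ p, U ω p ∂ν|} * t ^ 2
      = t ^ 2 * P.real {ω | t ≤ |∫ p, U ω p ∂ν|} := mul_comm _ _
    _ ≤ K ^ 2 * (ν.prod ν).real S := hmark.trans hbound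

end Pool.Agent.H719R2.Sec
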