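import Pool.Agent.H719R2.Sec.Basic

set_option autoImplicit false

open MeasureTheory Set Filter Topology
open scoped ENNReal

namespace Pool.Agent.H719R2.Sec

/-- Bernoulli measure on `Bool` -/
noncomputable def bern (β : ℝ) : Measure Bool :=
  ENNReal.ofReal β • Measure.dirac true + ENNReal.ofReal (1 - β) • Measure.dirac false

theorem bern_prob (β : ℝ) (h0 : 0 ≤ β) (h1 : β ≤ 1) : IsProbabilityMeasure (bern β) := by
  constructor
  unfold bern
  simp only [Measure.coe_add, Measure.coe_smul, Pi.add_apply, Pi.smul_apply, measure_univ,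
    smul_eq_mul, mul_one]
  rw [← ENNReal.ofReal_add h0 (by linarith)]
  simp

theorem bern_true (β : ℝ) : bern β {true} = ENNReal.ofReal β := by
  unfold bern
  simp

/-- uniform measure on `(0,1]` -/
noncomputable def unif : Measure ℝ := volume.restrict (Ioc (0 : ℝ) 1)

instance : IsProbabilityMeasure unif := by
  constructor
  unfold unif
  simp

/-- the cell field -/
noncomputable def zf (q : ((ℤ × ℤ → Bool) × (ℝ × ℝ))) (x : ℝ × ℝ) : ℝ :=
  if q.1 (⌊x.1 + q.2.1⌋, ⌊x.2 + q.2.2⌋) = true then 1 else 0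

theorem measurable_zf : Measurable (fun q : ((ℤ × ℤ → Bool) × (ℝ × ℝ)) × (ℝ × ℝ) => zf q.1 q.2) := by
  unfold zf
  have h1 : Measurable (fun p : (ℤ × ℤ → Bool) × (ℤ × ℤ) => p.1 p.2) :=
    measurable_from_prod_countable_left (fun k => measurable_pi_apply k)
  have h2 : Measurable (fun q : ((ℤ × ℤ → Bool) × (ℝ × ℝ)) × (ℝ × ℝ) =>
      ((q.1.1, (⌊q.2.1 + q.1.2.1⌋, ⌊q.2.2 + q.1.2.2⌋)) : (ℤ × ℤ → Bool) × (ℤ × ℤ))) := by
    refine Measurable.prodMk (by fun_prop) (Measurable.prodMk ?_ ?_)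
    · exact Int.measurable_floor.comp (by fun_prop)
    · exact Int.measurable_floor.comp (by fun_prop)
  have h3 := h1.comp h2
  refine Measurable.ite ?_ measurable_const measurable_const
  exact h3 (measurableSet_singleton true)

theorem zf_01 (q : ((ℤ × ℤ → Bool) × (ℝ × ℝ))) (x : ℝ × ℝ) : zf q x = 0 ∨ zf q x = 1 := by
  unfold zf
  split_ifs
  · right; rfl
  · left; rfl

theorem zf_abs (q : ((ℤ × ℤ → Bool) × (ℝ × ℝ))) (x : ℝ × ℝ) : |zf q x| ≤ 1 := by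
  rcases zf_01 q x with h | h <;> rw [h] <;> simp

theorem floor_ne {a b u : ℝ} (h : 1 ≤ |a - b|) : ⌊a + u⌋ ≠ ⌊b + u⌋ := by
  intro hf
  have := Int.abs_sub_lt_one_of_floor_eq_floor hf
  rw [show a + u - (b + u) = a - b by ring] at this
  linarith

theorem floor_eq {a b u θ : ℝ} (hθ : θ < 1) (hu : u ∈ Ioc (0 : ℝ) 1)
    (hab : |a - b| ≤ θ)
    (hS : ¬ ∃ m : ℤ, m ∈ ({⌊a⌋, ⌊a⌋ + 1, ⌊a⌋ + 2} : Finset ℤ) ∧ |a + u - m| ≤ θ) :
    ⌊b + u⌋ = ⌊a + u⌋ := by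
  have hS' : ∀ m : ℤ, θ < |a + u - m| := by
    intro m
    by_contra hm
    rw [not_lt] at hm
    apply hS
    refine ⟨m, ?_, hm⟩
    have h1 := Int.floor_le a
    have h2 := Int.lt_floor_add_one a
    rw [abs_le] at hm
    have h3 : (⌊a⌋ : ℝ) - 1 < m := by linarith [hu.1]
    have h4 : (m : ℝ) < ⌊a⌋ + 3 := by linarith [hu.2]
    have h5 : ⌊a⌋ - 1 < m := by exact_mod_cast h3
    have h6 : m < ⌊a⌋ + 3 := by exact_mod_cast h4
    simp only [Finset.mem_insert, Finset.mem_singleton]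
    omega
  have h1 := hS' ⌊a + u⌋
  have h2 := hS' (⌊a + u⌋ + 1)
  have h3 := Int.floor_le (a + u)
  have h4 := Int.lt_floor_add_one (a + u)
  rw [abs_of_nonneg (by linarith)] at h1
  push_cast at h2
  rw [abs_of_neg (by linarith)] at h2
  rw [abs_le] at hab
  rw [Int.floor_eq_iff]
  constructor <;> linarith [hab.1, hab.2]

theorem badset_le (a θ : ℝ) (hθ : 0 ≤ θ) :
    unif.real {u | ∃ m : ℤ, m ∈ ({⌊a⌋, ⌊a⌋ + 1, ⌊a⌋ + 2} : Finset ℤ) ∧ |a + u - m| ≤ θ} ≤ 6 * θ := by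
  have hsub : {u | ∃ m : ℤ, m ∈ ({⌊a⌋, ⌊a⌋ + 1, ⌊a⌋ + 2} : Finset ℤ) ∧ |a + u - m| ≤ θ} ⊆
      ⋃ m ∈ ({⌊a⌋, ⌊a⌋ + 1, ⌊a⌋ + 2} : Finset ℤ), Icc ((m : ℝ) - a - θ) ((m : ℝ) - a + θ) := by
    rintro u ⟨m, hm, hu⟩
    rw [abs_le] at hu
    simp only [mem_iUnion]
    exact ⟨m, hm, by linarith [hu.1], by linarith [hu.2]⟩
  have h1 : unif {u | ∃ m : ℤ, m ∈ ({⌊a⌋, ⌊a⌋ + 1, ⌊a⌋ + 2} : Finset ℤ) ∧ |a + u - m| ≤ θ} ≤
      ENNReal.ofReal (6 * θ) := by
    refine (measure_mono hsub).trans ?_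
    refine (measure_biUnion_finset_le _ _).trans ?_
    have h2 : ∀ m ∈ ({⌊a⌋, ⌊a⌋ + 1, ⌊a⌋ + 2} : Finset ℤ),
        unif (Icc ((m : ℝ) - a - θ) ((m : ℝ) - a + θ)) ≤ ENNReal.ofReal (2 * θ) := by
      intro m _
      unfold unif
      refine (Measure.restrict_le_self _).trans ?_
      rw [Real.volume_Icc]
      exact ENNReal.ofReal_le_ofReal (by linarith)
    refine (Finset.sum_le_sum h2).trans ?_
    rw [Finset.sum_const, nsmul_eq_mul]
    have hcard : (({⌊a⌋, ⌊a⌋ + 1, ⌊a⌋ + 2} : Finset ℤ).card : ℝ≥0∞) ≤ ENNReal.ofReal 3 := by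
      have : ({⌊a⌋, ⌊a⌋ + 1, ⌊a⌋ + 2} : Finset ℤ).card ≤ 3 := Finset.card_le_three
      rw [show (ENNReal.ofReal 3) = ((3 : ℕ) : ℝ≥0∞) by norm_num]
      exact_mod_cast this
    refine (mul_le_mul_left hcard _).trans ?_
    rw [← ENNReal.ofReal_mul (by norm_num)]
    exact ENNReal.ofReal_le_ofReal (by linarith)
  rw [measureReal_def]
  exact ENNReal.toReal_le_of_le_ofReal (by positivity) h1

theorem measurableSet_badset (a θ : ℝ) :
    MeasurableSet {u : ℝ | ∃ m : ℤ, m ∈ ({⌊a⌋, ⌊a⌋ + 1, ⌊a⌋ + 2} : Finset ℤ) ∧ |a + u - m| ≤ θ} := by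
  have : {u : ℝ | ∃ m : ℤ, m ∈ ({⌊a⌋, ⌊a⌋ + 1, ⌊a⌋ + 2} : Finset ℤ) ∧ |a + u - m| ≤ θ} =
      ⋃ m ∈ ({⌊a⌋, ⌊a⌋ + 1, ⌊a⌋ + 2} : Finset ℤ), {u : ℝ | |a + u - m| ≤ θ} := by
    ext u
    simp
  rw [this]
  refine Finset.measurableSet_biUnion _ fun m _ => ?_
  exact measurableSet_le (by fun_prop) measurable_const

/-- **The cell field.** -/
theorem exists_cell (β : ℝ) (h0 : 0 ≤ β) (h1 : β ≤ 1) :
    ∃ (Ω : Type) (_ : MeasurableSpace Ω) (P : Measure Ω) (_ : IsProbabilityMeasure P)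
      (z : Ω → ℝ × ℝ → ℝ),
      Measurable (fun q : Ω × (ℝ × ℝ) => z q.1 q.2) ∧
      (∀ ω x, z ω x = 0 ∨ z ω x = 1) ∧
      (∀ x, ∫ ω, z ω x ∂P = β) ∧
      (∀ x y, 1 ≤ dist x y → ∫ ω, z ω x * z ω y ∂P = β ^ 2) ∧
      (∀ x θ, 0 < θ → θ < 1 → ∃ S : Set Ω, MeasurableSet S ∧ P.real S ≤ 12 * θ ∧
        ∀ ω, ω ∉ S → ∀ y, dist x y ≤ θ → z ω y = z ω x) := by
  have hb := bern_prob β h0 h1
  set W : Measure (ℤ × ℤ → Bool) := Measure.infinitePi (fun _ => bern β) with hW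
  have hWp : IsProbabilityMeasure W := by rw [hW]; infer_instance
  have hev : ∀ k : ℤ × ℤ, MeasurableSet {w : ℤ × ℤ → Bool | w k = true} := by
    intro k
    have h : Measurable (fun w : ℤ × ℤ → Bool => w k) := measurable_pi_apply k
    exact h (measurableSet_singleton true)
  -- single cell
  have hone : ∀ k : ℤ × ℤ, ∫ w, (if w k = true then (1 : ℝ) else 0) ∂W = β := by
    intro k
    have h2 : (fun w : ℤ × ℤ → Bool => (if w k = true then (1 : ℝ) else 0)) =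
        indicator {w | w k = true} (fun _ => (1 : ℝ)) := by
      ext w
      by_cases h : w k = true <;> simp [h, indicator]
    have hmeas : MeasurableSet {w : ℤ × ℤ → Bool | w k = true} := hev k
    rw [h2, integral_indicator_const _ hmeas, smul_eq_mul, mul_one, measureReal_def]
    have h3 := Measure.infinitePi_pi (μ := fun _ : ℤ × ℤ => bern β) (s := {k})
      (t := fun _ => {true}) (fun _ _ => measurableSet_singleton true)
    have h4 : Set.pi (({k} : Finset (ℤ × ℤ)) : Set (ℤ × ℤ)) (fun _ => ({true} : Set Bool)) =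
        {w : ℤ × ℤ → Bool | w k = true} := by
      ext w
      simp
    rw [h4, Finset.prod_singleton, bern_true] at h3
    rw [hW, h3, ENNReal.toReal_ofReal h0]
  have htwo : ∀ k l : ℤ × ℤ, k ≠ l →
      ∫ w, (if w k = true then (1 : ℝ) else 0) * (if w l = true then (1 : ℝ) else 0) ∂W = β ^ 2 := by
    intro k l hkl
    have h2 : (fun w : ℤ × ℤ → Bool => (if w k = true then (1 : ℝ) else 0) *
        (if w l = true then (1 : ℝ) else 0)) =
        indicator {w | w k = true ∧ w l = true} (fun _ => (1 : ℝ)) := by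
      ext w
      by_cases h : w k = true <;> by_cases h' : w l = true <;> simp [h, h', indicator]
    have hmeas : MeasurableSet {w : ℤ × ℤ → Bool | w k = true ∧ w l = true} :=
      (hev k).inter (hev l)
    rw [h2, integral_indicator_const _ hmeas, smul_eq_mul, mul_one, measureReal_def]
    have h3 := Measure.infinitePi_pi (μ := fun _ : ℤ × ℤ => bern β) (s := {k, l})
      (t := fun _ => {true}) (fun _ _ => measurableSet_singleton true)
    have h4 : Set.pi (({k, l} : Finset (ℤ × ℤ)) : Set (ℤ × ℤ)) (fun _ => ({true} : Set Bool)) =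
        {w : ℤ × ℤ → Bool | w k = true ∧ w l = true} := by
      ext w
      simp
    rw [h4, Finset.prod_pair hkl, bern_true] at h3
    rw [hW, h3, ← ENNReal.ofReal_mul h0, ENNReal.toReal_ofReal (by positivity), sq]
  refine ⟨(ℤ × ℤ → Bool) × (ℝ × ℝ), inferInstance, W.prod (unif.prod unif), inferInstance, zf,
    measurable_zf, zf_01, ?_, ?_, ?_⟩
  · intro x
    have hm : Measurable (fun q : (ℤ × ℤ → Bool) × (ℝ × ℝ) => zf q x) :=
      measurable_zf.comp (measurable_id.prodMk measurable_const)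
    have hi : Integrable (fun q : (ℤ × ℤ → Bool) × (ℝ × ℝ) => zf q x) (W.prod (unif.prod unif)) :=
      integrable_bdd hm 1 (fun q => zf_abs q x)
    rw [integral_prod_symm _ hi]
    simp only [zf, hone]
    simp
  · intro x y hxy
    have hm : Measurable (fun q : (ℤ × ℤ → Bool) × (ℝ × ℝ) => zf q x * zf q y) :=
      (measurable_zf.comp (measurable_id.prodMk measurable_const)).mul
        (measurable_zf.comp (measurable_id.prodMk measurable_const))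
    have hi : Integrable (fun q : (ℤ × ℤ → Bool) × (ℝ × ℝ) => zf q x * zf q y)
        (W.prod (unif.prod unif)) :=
      integrable_bdd hm 1 (fun q => by
        rw [abs_mul]
        exact mul_le_one₀ (zf_abs q x) (abs_nonneg _) (zf_abs q y))
    rw [integral_prod_symm _ hi]
    have hne : ∀ u : ℝ × ℝ, ((⌊x.1 + u.1⌋, ⌊x.2 + u.2⌋) : ℤ × ℤ) ≠ (⌊y.1 + u.1⌋, ⌊y.2 + u.2⌋) := by
      intro u h
      rw [Prod.mk.injEq] at h
      rw [Prod.dist_eq, le_max_iff, Real.dist_eq, Real.dist_eq] at hxy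
      rcases hxy with h' | h'
      · exact floor_ne h' h.1
      · exact floor_ne h' h.2
    have : ∀ u : ℝ × ℝ, ∫ w, zf (w, u) x * zf (w, u) y ∂W = β ^ 2 := by
      intro u
      simp only [zf]
      exact htwo _ _ (hne u)
    simp_rw [this]
    simp
  · intro x θ hθ hθ1
    set S1 : Set ℝ := {u | ∃ m : ℤ, m ∈ ({⌊x.1⌋, ⌊x.1⌋ + 1, ⌊x.1⌋ + 2} : Finset ℤ) ∧
      |x.1 + u - m| ≤ θ} with hS1
    set S2 : Set ℝ := {u | ∃ m : ℤ, m ∈ ({⌊x.2⌋, ⌊x.2⌋ + 1, ⌊x.2⌋ + 2} : Finset ℤ) ∧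
      |x.2 + u - m| ≤ θ} with hS2
    have m1 : MeasurableSet S1 := measurableSet_badset _ _
    have m2 : MeasurableSet S2 := measurableSet_badset _ _
    have mI : MeasurableSet (Ioc (0 : ℝ) 1)ᶜ := measurableSet_Ioc.compl
    -- the bad set
    set S : Set ((ℤ × ℤ → Bool) × (ℝ × ℝ)) :=
      {q | q.2.1 ∈ S1 ∪ (Ioc (0 : ℝ) 1)ᶜ} ∪ {q | q.2.2 ∈ S2 ∪ (Ioc (0 : ℝ) 1)ᶜ} with hS
    have hmS1 : MeasurableSet {q : (ℤ × ℤ → Bool) × (ℝ × ℝ) | q.2.1 ∈ S1 ∪ (Ioc (0 : ℝ) 1)ᶜ} :=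
      (measurable_fst.comp measurable_snd) (m1.union mI)
    have hmS2 : MeasurableSet {q : (ℤ × ℤ → Bool) × (ℝ × ℝ) | q.2.2 ∈ S2 ∪ (Ioc (0 : ℝ) 1)ᶜ} :=
      (measurable_snd.comp measurable_snd) (m2.union mI)
    have hnull : unif (Ioc (0 : ℝ) 1)ᶜ = 0 := by
      unfold unif
      rw [Measure.restrict_apply mI, compl_inter_self, measure_empty]
    have hu : ∀ T : Set ℝ, MeasurableSet T → unif.real T ≤ 6 * θ →
        unif.real (T ∪ (Ioc (0 : ℝ) 1)ᶜ) ≤ 6 * θ := by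
      intro T _ hT
      refine (measureReal_union_le _ _).trans ?_
      rw [measureReal_def unif (Ioc (0 : ℝ) 1)ᶜ, hnull]
      simpa using hT
    refine ⟨S, hmS1.union hmS2, ?_, ?_⟩
    · refine (measureReal_union_le _ _).trans ?_
      have e1 : (W.prod (unif.prod unif)).real
          {q : (ℤ × ℤ → Bool) × (ℝ × ℝ) | q.2.1 ∈ S1 ∪ (Ioc (0 : ℝ) 1)ᶜ} =
          unif.real (S1 ∪ (Ioc (0 : ℝ) 1)ᶜ) := by
        have : {q : (ℤ × ℤ → Bool) × (ℝ × ℝ) | q.2.1 ∈ S1 ∪ (Ioc (0 : ℝ) 1)ᶜ} =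
            univ ×ˢ ((S1 ∪ (Ioc (0 : ℝ) 1)ᶜ) ×ˢ univ) := by
          ext q; simp
        rw [this, measureReal_prod_prod, measureReal_prod_prod]
        simp
      have e2 : (W.prod (unif.prod unif)).real
          {q : (ℤ × ℤ → Bool) × (ℝ × ℝ) | q.2.2 ∈ S2 ∪ (Ioc (0 : ℝ) 1)ᶜ} =
          unif.real (S2 ∪ (Ioc (0 : ℝ) 1)ᶜ) := by
        have : {q : (ℤ × ℤ → Bool) × (ℝ × ℝ) | q.2.2 ∈ S2 ∪ (Ioc (0 : ℝ) 1)ᶜ} =
            univ ×ˢ (univ ×ˢ (S2 ∪ (Ioc (0 : ℝ) 1)ᶜ)) := by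
          ext q; simp
        rw [this, measureReal_prod_prod, measureReal_prod_prod]
        simp
      rw [e1, e2]
      have := hu S1 m1 (badset_le x.1 θ hθ.le)
      have := hu S2 m2 (badset_le x.2 θ hθ.le)
      linarith
    · intro ω hω y hy
      have hω' : ω.2.1 ∉ S1 ∪ (Ioc (0 : ℝ) 1)ᶜ ∧ ω.2.2 ∉ S2 ∪ (Ioc (0 : ℝ) 1)ᶜ := by
        constructor
        · intro h; exact hω (Or.inl h)
        · intro h; exact hω (Or.inr h)
      obtain ⟨h1', h2'⟩ := hω'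
      rw [mem_union, not_or, notMem_compl_iff] at h1' h2'
      rw [Prod.dist_eq, max_le_iff, Real.dist_eq, Real.dist_eq] at hy
      have f1 := floor_eq hθ1 h1'.2 hy.1 h1'.1
      have f2 := floor_eq hθ1 h2'.2 hy.2 h2'.1
      unfold zf
      rw [f1, f2]

end Pool.Agent.H719R2.Sec
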