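import Pool.Agent.H719R2.Sec.Round

set_option autoImplicit false

open MeasureTheory Set Filter Topology
open scoped ENNReal

namespace Pool.Agent.H719R2.Sec

namespace Cl

variable (c : Cl)

/-- geometric conditions of a round -/
structure Geo (R1 : Finset ℝ) (r0 R t1 θ : ℝ) : Prop where
  hr0 : 0 < r0
  hr : ∀ r ∈ R1, r0 ≤ r ∧ r ≤ R
  ht1 : 0 < t1
  hθ : 0 < θ
  hθ1 : θ < 1
  c1 : 1 / c.H ≤ t1 / (2 * c.N)
  c2 : 1 ≤ c.M * (r0 * (t1 / (2 * c.N)))
  c3 : c.F.B ≤ c.H * (r0 * (t1 / (2 * c.N)))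
  c4 : R / c.Λ ≤ θ
  c5 : c.M * R / c.H ≤ θ

theorem not_close {p q : ℝ × ℝ} {t1 : ℝ} (h : (p, q) ∉ close t1) : t1 ≤ |p.1 - q.1| := by
  unfold close at h
  simpa using h

section one

variable {Ωn : Type} [MeasurableSpace Ωn] (Pn : Measure Ωn) [IsProbabilityMeasure Pn]

/-- carrier fluctuation -/
noncomputable def U1 (i : Fin c.N) (r : ℝ) (x : ℝ × ℝ) (q : c.Ωw × Ωn) (p : ℝ × ℝ) : ℝ :=
  c.car q.1 (c.dp i r x p) * c.κ - c.G i (q.1 i) (c.dp i r x p) * c.κ

theorem measurable_U1 (i : Fin c.N) (r : ℝ) (x : ℝ × ℝ) :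
    Measurable (fun z : (c.Ωw × Ωn) × (ℝ × ℝ) => c.U1 i r x z.1 z.2) := by
  unfold U1
  have hd := c.measurable_dp i r x
  have h1 : Measurable (fun z : (c.Ωw × Ωn) × (ℝ × ℝ) => (z.1.1, c.dp i r x z.2)) :=
    (measurable_fst.comp measurable_fst).prodMk (hd.comp measurable_snd)
  have h2 : Measurable (fun z : (c.Ωw × Ωn) × (ℝ × ℝ) => (z.1.1 i, c.dp i r x z.2)) :=
    ((measurable_pi_apply i).comp (measurable_fst.comp measurable_fst)).prodMk
      (hd.comp measurable_snd)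
  exact ((c.measurable_car.comp h1).mul_const _).sub (((c.measurable_G i).comp h2).mul_const _)

theorem LG_le_LGN : c.LG ≤ c.LG ^ c.N := by
  calc c.LG = c.LG ^ 1 := (pow_one _).symm
    _ ≤ c.LG ^ c.N := pow_le_pow_right₀ c.LG_ge c.hN

omit [MeasurableSpace Ωn] in
theorem U1_abs (i : Fin c.N) (r : ℝ) (x : ℝ × ℝ) (q : c.Ωw × Ωn) (p : ℝ × ℝ) :
    |c.U1 i r x q p| ≤ 2 * c.LG ^ c.N := by
  unfold U1
  have h1 := c.car_nonneg q.1 (c.dp i r x p)
  have h2 := c.car_le q.1 (c.dp i r x p)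
  have h3 := c.G_nonneg i (q.1 i) (c.dp i r x p)
  have h4 := (c.G_le i (q.1 i) (c.dp i r x p)).trans c.LG_le_LGN
  have h5 := c.κ_nonneg
  have h6 := c.κ_le
  have h7 : c.car q.1 (c.dp i r x p) * c.κ ≤ c.LG ^ c.N := by
    calc c.car q.1 (c.dp i r x p) * c.κ ≤ c.car q.1 (c.dp i r x p) * 1 := by gcongr
      _ ≤ c.LG ^ c.N := by linarith
  have h8 : c.G i (q.1 i) (c.dp i r x p) * c.κ ≤ c.LG ^ c.N := by
    calc c.G i (q.1 i) (c.dp i r x p) * c.κ ≤ c.G i (q.1 i) (c.dp i r x p) * 1 := by gcongr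
      _ ≤ c.LG ^ c.N := by linarith
  have h9 : 0 ≤ c.car q.1 (c.dp i r x p) * c.κ := mul_nonneg h1 h5
  have h10 : 0 ≤ c.G i (q.1 i) (c.dp i r x p) * c.κ := mul_nonneg h3 h5
  rw [abs_le]
  constructor <;> linarith

theorem cheb1 (μ : Measure ℝ) [IsProbabilityMeasure μ] (hμ : ∀ᵐ a ∂μ, a ∈ Icc (0 : ℝ) 1)
    (R1 : Finset ℝ) (r0 R t1 θ : ℝ) (hG : c.Geo R1 r0 R t1 θ) (i : Fin c.N) (r : ℝ) (hr : r ∈ R1)
    (x : ℝ × ℝ) (t : ℝ) (ht : 0 < t) :
    (c.Pw.prod Pn).real {q | t ≤ |∫ p, c.U1 i r x q p ∂(nu μ)|} ≤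
      (2 * c.LG ^ c.N) ^ 2 * (4 * t1) / t ^ 2 := by
  have h := cheb (c.Pw.prod Pn) (nu μ) (c.U1 i r x) (c.measurable_U1 i r x) (2 * c.LG ^ c.N)
    (c.U1_abs i r x) Bx (nu_ae μ hμ) (close t1) (measurableSet_close t1) ?_ t ht
  · refine h.trans ?_
    gcongr
    exact close_le μ t1 hG.ht1.le
  · intro p hp p' hp' hpp
    have hd := not_close hpp
    have hfar := fun l (hl : l ≠ i) => c.far_dp l i hl r x p p' r0 t1 hG.hr0 (hG.hr r hr).1 hG.ht1
      hp hp' hd hG.c1 hG.c2 hG.c3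
    set y := c.dp i r x p with hy
    set y' := c.dp i r x p' with hy'
    have hb : ∀ (z : ℝ × ℝ) (l : Fin c.N), BM (fun b : c.Ωb => if l = i then c.G i b z else 1) := by
      intro z l
      by_cases hl : l = i
      · simp only [hl, if_true]; exact c.bm_G i z
      · simp only [hl, if_false]; exact BM.const 1
    have hz := c.cov_zero Pn (fun l b => c.G l b y) (fun l b => if l = i then c.G i b y else 1)
      (fun l b => c.G l b y') (fun l b => if l = i then c.G i b y' else 1)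
      (fun _ => c.κ) (fun _ => c.κ) (fun _ => c.κ) (fun _ => c.κ)
      (fun l => c.bm_G l y) (hb y) (fun l => c.bm_G l y') (hb y')
      (BM.const _) (BM.const _) (BM.const _) (BM.const _) ?_ ?_ ?_ rfl rfl rfl
    · rw [← hz]
      congr 1
      ext q
      simp only [Finset.prod_ite_eq', Finset.mem_univ, if_true]
      rfl
    · intro l
      by_cases hl : l = i
      · simp [hl]
      · simp only [hl, if_false, mul_one]
        rw [c.E_G, c.E_GG l y y' (hfar l hl).1 (hfar l hl).2]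
    · intro l
      by_cases hl : l = i
      · simp [hl]
      · simp only [hl, if_false, one_mul]
        rw [c.E_G, c.E_GG l y y' (hfar l hl).1 (hfar l hl).2]
    · intro l
      by_cases hl : l = i
      · simp [hl]
      · simp only [hl, if_false, one_mul]
        rw [c.E_GG l y y' (hfar l hl).1 (hfar l hl).2]
        simp

end one

section three

variable (Fn : Fld) (M' : ℝ)

/-- background fluctuation -/
noncomputable def U3 (i : Fin c.N) (r : ℝ) (x : ℝ × ℝ) (q : c.Ωw × Fn.Ω) (p : ℝ × ℝ) : ℝ :=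
  c.noh q.1 (c.dp i r x p) * Fn.g q.2 (M' * (c.dp i r x p).1, M' * (c.dp i r x p).2) -
    (1 - c.hot i (q.1 i) (c.dp i r x p)) * (1 - c.β) ^ (c.N - 1)

theorem measurable_U3 (i : Fin c.N) (r : ℝ) (x : ℝ × ℝ) :
    Measurable (fun z : (c.Ωw × Fn.Ω) × (ℝ × ℝ) => c.U3 Fn M' i r x z.1 z.2) := by
  unfold U3
  have hd := c.measurable_dp i r x
  have h1 : Measurable (fun z : (c.Ωw × Fn.Ω) × (ℝ × ℝ) => (z.1.1, c.dp i r x z.2)) :=
    (measurable_fst.comp measurable_fst).prodMk (hd.comp measurable_snd)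
  have h2 : Measurable (fun z : (c.Ωw × Fn.Ω) × (ℝ × ℝ) => (z.1.1 i, c.dp i r x z.2)) :=
    ((measurable_pi_apply i).comp (measurable_fst.comp measurable_fst)).prodMk
      (hd.comp measurable_snd)
  have h3 : Measurable (fun z : (c.Ωw × Fn.Ω) × (ℝ × ℝ) =>
      (z.1.2, ((M' * (c.dp i r x z.2).1, M' * (c.dp i r x z.2).2) : ℝ × ℝ))) := by
    have h4 : Measurable (fun z : (c.Ωw × Fn.Ω) × (ℝ × ℝ) => c.dp i r x z.2) :=
      hd.comp measurable_snd
    exact (measurable_snd.comp measurable_fst).prodMk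
      (((measurable_fst.comp h4).const_mul M').prodMk ((measurable_snd.comp h4).const_mul M'))
  exact ((c.measurable_noh.comp h1).mul (Fn.meas.comp h3)).sub
    ((measurable_const.sub ((c.measurable_hot i).comp h2)).mul_const _)

theorem U3_abs (hL : Fn.L ≤ c.LG ^ c.N) (i : Fin c.N) (r : ℝ) (x : ℝ × ℝ) (q : c.Ωw × Fn.Ω)
    (p : ℝ × ℝ) : |c.U3 Fn M' i r x q p| ≤ 2 * c.LG ^ c.N := by
  unfold U3
  set y := c.dp i r x p
  have h1 := c.noh_nonneg q.1 y
  have h2 := c.noh_le q.1 y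
  have h3 := Fn.nonneg q.2 (M' * y.1, M' * y.2)
  have h4 := (Fn.le q.2 (M' * y.1, M' * y.2)).trans hL
  have h5 := c.hot_nonneg i (q.1 i) y
  have h6 := c.hot_le i (q.1 i) y
  have h7 : 0 ≤ (1 - c.β) ^ (c.N - 1) := pow_nonneg (by linarith [c.hβ1]) _
  have h8 : (1 - c.β) ^ (c.N - 1) ≤ 1 := pow_le_one₀ (by linarith [c.hβ1]) (by linarith [c.hβ0])
  have h9 := c.LGN_ge
  have h10 : c.noh q.1 y * Fn.g q.2 (M' * y.1, M' * y.2) ≤ c.LG ^ c.N := by
    calc _ ≤ 1 * Fn.g q.2 (M' * y.1, M' * y.2) := by gcongr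
      _ ≤ _ := by linarith
  have h11 : 0 ≤ c.noh q.1 y * Fn.g q.2 (M' * y.1, M' * y.2) := mul_nonneg h1 h3
  have h12 : (1 - c.hot i (q.1 i) y) * (1 - c.β) ^ (c.N - 1) ≤ 1 :=
    mul_le_one₀ (by linarith) h7 h8
  have h13 : 0 ≤ (1 - c.hot i (q.1 i) y) * (1 - c.β) ^ (c.N - 1) := mul_nonneg (by linarith) h7
  rw [abs_le]
  constructor <;> linarith

theorem prod_ite_pow (i : Fin c.N) (f : Fin c.N → ℝ) (v : ℝ) :
    ∏ l, (if l = i then f l else v) = f i * v ^ (c.N - 1) := by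
  rw [← Finset.mul_prod_erase Finset.univ _ (Finset.mem_univ i)]
  simp only [if_true]
  congr 1
  rw [Finset.prod_congr rfl (g := fun _ => v)]
  · rw [Finset.prod_const, Finset.card_erase_of_mem (Finset.mem_univ i), Finset.card_univ,
      Fintype.card_fin]
  · intro l hl
    rw [if_neg (Finset.ne_of_mem_erase hl)]

theorem dist_scale (hM' : 0 < M') (y y' : ℝ × ℝ) :
    dist ((M' * y.1, M' * y.2) : ℝ × ℝ) (M' * y'.1, M' * y'.2) = M' * dist y y' := by
  rw [Prod.dist_eq, Prod.dist_eq, Real.dist_eq, Real.dist_eq, Real.dist_eq, Real.dist_eq,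
    ← mul_sub, ← mul_sub, abs_mul, abs_mul, abs_of_pos hM',
    mul_max_of_nonneg _ _ hM'.le]

theorem cheb3 (hL : Fn.L ≤ c.LG ^ c.N) (μ : Measure ℝ) [IsProbabilityMeasure μ]
    (hμ : ∀ᵐ a ∂μ, a ∈ Icc (0 : ℝ) 1)
    (R1 : Finset ℝ) (r0 R t1 θ : ℝ) (hG : c.Geo R1 r0 R t1 θ) (hM' : 0 < M')
    (hM'' : Fn.B ≤ M' * (r0 * t1)) (i : Fin c.N) (r : ℝ) (hr : r ∈ R1)
    (x : ℝ × ℝ) (t : ℝ) (ht : 0 < t) :
    (c.Pw.prod Fn.P).real {q | t ≤ |∫ p, c.U3 Fn M' i r x q p ∂(nu μ)|} ≤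
      (2 * c.LG ^ c.N) ^ 2 * (4 * t1) / t ^ 2 := by
  have h := cheb (c.Pw.prod Fn.P) (nu μ) (c.U3 Fn M' i r x) (c.measurable_U3 Fn M' i r x)
    (2 * c.LG ^ c.N)
    (c.U3_abs Fn M' hL i r x) Bx (nu_ae μ hμ) (close t1) (measurableSet_close t1) ?_ t ht
  · refine h.trans ?_
    gcongr
    exact close_le μ t1 hG.ht1.le
  · intro p hp p' hp' hpp
    have hd := not_close hpp
    have hfar := fun l (hl : l ≠ i) => c.far_dp l i hl r x p p' r0 t1 hG.hr0 (hG.hr r hr).1 hG.ht1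
      hp hp' hd hG.c1 hG.c2 hG.c3
    have hdist : r0 * t1 ≤ dist (c.dp i r x p) (c.dp i r x p') := by
      rw [Prod.dist_eq, Real.dist_eq]
      refine le_trans ?_ (le_max_left _ _)
      unfold dp
      simp only
      have e : x.1 - r * p.1 - (x.1 - r * p'.1) = -(r * (p.1 - p'.1)) := by ring
      have hr1 := (hG.hr r hr).1
      have hr0 := hG.hr0
      rw [e, abs_neg, abs_mul, abs_of_pos (by linarith : (0 : ℝ) < r)]
      exact mul_le_mul hr1 hd hG.ht1.le (by linarith)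
    set y := c.dp i r x p with hy
    set y' := c.dp i r x p' with hy'
    have hn : Fn.B ≤ dist ((M' * y.1, M' * y.2) : ℝ × ℝ) (M' * y'.1, M' * y'.2) := by
      rw [dist_scale M' hM']
      exact hM''.trans (mul_le_mul_of_nonneg_left hdist hM'.le)
    have hb : ∀ (z : ℝ × ℝ) (l : Fin c.N),
        BM (fun b : c.Ωb => if l = i then 1 - c.hot i b z else 1 - c.β) := by
      intro z l
      by_cases hl : l = i
      · simp only [hl, if_true]; exact c.bm_nh i z
      · simp only [hl, if_false]; exact BM.const _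
    have hz := c.cov_zero Fn.P (fun l b => 1 - c.hot l b y)
      (fun l b => if l = i then 1 - c.hot i b y else 1 - c.β)
      (fun l b => 1 - c.hot l b y') (fun l b => if l = i then 1 - c.hot i b y' else 1 - c.β)
      (fun v => Fn.g v (M' * y.1, M' * y.2)) (fun _ => 1)
      (fun v => Fn.g v (M' * y'.1, M' * y'.2)) (fun _ => 1)
      (fun l => c.bm_nh l y) (hb y) (fun l => c.bm_nh l y') (hb y')
      (Fn.bm _) (BM.const _) (Fn.bm _) (BM.const _) ?_ ?_ ?_ ?_ ?_ ?_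
    · rw [← hz]
      congr 1
      ext q
      rw [c.prod_ite_pow i (fun l => 1 - c.hot i (q.1 l) y),
        c.prod_ite_pow i (fun l => 1 - c.hot i (q.1 l) y'), mul_one, mul_one]
      rfl
    · intro l
      by_cases hl : l = i
      · simp [hl]
      · simp only [hl, if_false]
        rw [integral_mul_const, c.E_nh, c.E_nn l y y' (hfar l hl).1]
        ring
    · intro l
      by_cases hl : l = i
      · simp [hl]
      · simp only [hl, if_false]
        rw [integral_const_mul, c.E_nh, c.E_nn l y y' (hfar l hl).1]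
        ring
    · intro l
      by_cases hl : l = i
      · simp [hl]
      · simp only [hl, if_false]
        rw [c.E_nn l y y' (hfar l hl).1]
        simp only [integral_const, probReal_univ, smul_eq_mul]
        ring
    · simp only [mul_one]
      rw [Fn.mean, Fn.uncorr _ _ hn]
    · simp only [one_mul]
      rw [Fn.mean, Fn.uncorr _ _ hn]
    · rw [Fn.uncorr _ _ hn]
      simp

end three

end Cl

end Pool.Agent.H719R2.Sec
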