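import Pool.Agent.H719R2.Sec.Cell

set_option autoImplicit false

open MeasureTheory Set Filter Topology
open scoped ENNReal

namespace Pool.Agent.H719R2.Sec

/-- A bounded nonnegative random field of mean one with finite range of correlation. -/
structure Fld where
  Ω : Type
  mΩ : MeasurableSpace Ω
  P : Measure Ω
  hP : IsProbabilityMeasure P
  g : Ω → ℝ × ℝ → ℝ
  L : ℝ
  B : ℝ
  meas : Measurable (fun q : Ω × (ℝ × ℝ) => g q.1 q.2)
  nonneg : ∀ ω x, 0 ≤ g ω x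
  le : ∀ ω x, g ω x ≤ L
  mean : ∀ x, ∫ ω, g ω x ∂P = 1
  uncorr : ∀ x y, B ≤ dist x y → ∫ ω, g ω x * g ω y ∂P = 1

attribute [instance] Fld.mΩ Fld.hP

/-- A cell field. -/
structure Cell (β : ℝ) where
  Ω : Type
  mΩ : MeasurableSpace Ω
  P : Measure Ω
  hP : IsProbabilityMeasure P
  z : Ω → ℝ × ℝ → ℝ
  meas : Measurable (fun q : Ω × (ℝ × ℝ) => z q.1 q.2)
  z01 : ∀ ω x, z ω x = 0 ∨ z ω x = 1
  mean : ∀ x, ∫ ω, z ω x ∂P = β
  uncorr : ∀ x y, 1 ≤ dist x y → ∫ ω, z ω x * z ω y ∂P = β ^ 2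
  cst : ∀ x θ, 0 < θ → θ < 1 → ∃ S : Set Ω, MeasurableSet S ∧ P.real S ≤ 12 * θ ∧
        ∀ ω, ω ∉ S → ∀ y, dist x y ≤ θ → z ω y = z ω x

attribute [instance] Cell.mΩ Cell.hP

theorem nonempty_cell (β : ℝ) (h0 : 0 ≤ β) (h1 : β ≤ 1) : Nonempty (Cell β) := by
  obtain ⟨Ω, m, P, hP, z, a1, a2, a3, a4, a5⟩ := exists_cell β h0 h1
  exact ⟨⟨Ω, m, P, hP, z, a1, a2, a3, a4, a5⟩⟩

/-- Average of `h` over the slope cone of length `r` with vertex `x`. -/
noncomputable def Av (μ : Measure ℝ) (r : ℝ) (h : ℝ × ℝ → ℝ) (x : ℝ × ℝ) : ℝ :=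
  ∫ p, h (x.1 - r * p.1, x.2 - r * p.1 * p.2) ∂(nu μ)

/-- failure set -/
def fail (F : Fld) (μ : Measure ℝ) (C : ℝ) (R : Finset ℝ) (x : ℝ × ℝ) : Set F.Ω :=
  {ω | ∀ r ∈ R, Av μ r (F.g ω) x < C}

theorem measurable_Av {Ω : Type*} [MeasurableSpace Ω] (μ : Measure ℝ) [IsProbabilityMeasure μ] (r : ℝ)
    (g : Ω → ℝ × ℝ → ℝ) (hg : Measurable (fun q : Ω × (ℝ × ℝ) => g q.1 q.2)) :
    Measurable (fun q : Ω × (ℝ × ℝ) => Av μ r (g q.1) q.2) := by
  unfold Av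
  have h : Measurable (fun q : (Ω × (ℝ × ℝ)) × (ℝ × ℝ) =>
      g q.1.1 (q.1.2.1 - r * q.2.1, q.1.2.2 - r * q.2.1 * q.2.2)) := by
    have h1 : Measurable (fun q : (Ω × (ℝ × ℝ)) × (ℝ × ℝ) =>
      (q.1.1, ((q.1.2.1 - r * q.2.1, q.1.2.2 - r * q.2.1 * q.2.2) : ℝ × ℝ))) := by fun_prop
    exact hg.comp h1
  exact (h.stronglyMeasurable.integral_prod_right (ν := nu μ)).measurable

theorem measurableSet_fail (F : Fld) (μ : Measure ℝ) [IsProbabilityMeasure μ] (C : ℝ)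
    (R : Finset ℝ) (x : ℝ × ℝ) : MeasurableSet (fail F μ C R x) := by
  unfold fail
  have : {ω : F.Ω | ∀ r ∈ R, Av μ r (F.g ω) x < C} =
      ⋂ r ∈ R, {ω : F.Ω | Av μ r (F.g ω) x < C} := by
    ext ω; simp
  rw [this]
  refine Finset.measurableSet_biInter _ fun r _ => ?_
  have h1 : Measurable (fun ω => Av μ r (F.g ω) x) :=
    (measurable_Av μ r F.g F.meas).comp (measurable_id.prodMk measurable_const)
  exact measurableSet_lt h1 measurable_const

/-- Success of the field `F` at level `C` for the slope measure `μ`, up to probability `p`. -/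
def Succ (F : Fld) (μ : Measure ℝ) (C p : ℝ) (R : Finset ℝ) : Prop :=
  (∀ r ∈ R, 0 < r) ∧ ∀ x, F.P.real (fail F μ C R x) ≤ p

/-- Parameters of one round. -/
structure Cl where
  N : ℕ
  β : ℝ
  F : Fld
  Z : Cell β
  a : Fin N → ℝ
  H : ℝ
  M : ℝ
  Λ : ℝ
  hN : 0 < N
  hβ0 : 0 < β
  hβ1 : β < 1
  ha : ∀ i, a i ∈ Icc (0 : ℝ) 1
  hsep : ∀ i j, i ≠ j → 1 / (N : ℝ) ≤ |a i - a j|
  hH : 1 ≤ H
  hM : 1 ≤ M
  hΛ : 1 ≤ Λ

namespace Cl

variable (c : Cl)

/-- the probability space of one cluster -/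
abbrev Ωb : Type := c.F.Ω × c.Z.Ω

noncomputable abbrev Pb : Measure c.Ωb := c.F.P.prod c.Z.P

abbrev Ωw : Type := Fin c.N → c.Ωb

noncomputable abbrev Pw : Measure c.Ωw := Measure.pi (fun _ => c.Pb)

/-- coordinates of the cell of cluster `l` -/
noncomputable def cz (l : Fin c.N) (y : ℝ × ℝ) : ℝ × ℝ := (y.1 / c.Λ, c.M * (y.2 - c.a l * y.1))

/-- coordinates of the inner game of cluster `l` -/
noncomputable def cd (l : Fin c.N) (y : ℝ × ℝ) : ℝ × ℝ := (y.1, c.H * (y.2 - c.a l * y.1))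

noncomputable def hot (l : Fin c.N) (b : c.Ωb) (y : ℝ × ℝ) : ℝ := c.Z.z b.2 (c.cz l y)

noncomputable def G (l : Fin c.N) (b : c.Ωb) (y : ℝ × ℝ) : ℝ :=
  (c.hot l b y / c.β) * c.F.g b.1 (c.cd l y)

noncomputable def noh (w : c.Ωw) (y : ℝ × ℝ) : ℝ := ∏ l, (1 - c.hot l (w l) y)

noncomputable def car (w : c.Ωw) (y : ℝ × ℝ) : ℝ := ∏ l, c.G l (w l) y

noncomputable def κ : ℝ := 1 - (1 - c.β) ^ c.N

theorem measurable_cz (l : Fin c.N) : Measurable (c.cz l) := by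
  unfold cz; fun_prop

theorem measurable_cd (l : Fin c.N) : Measurable (c.cd l) := by
  unfold cd; fun_prop

theorem measurable_hot (l : Fin c.N) :
    Measurable (fun q : c.Ωb × (ℝ × ℝ) => c.hot l q.1 q.2) := by
  unfold hot
  have h1 : Measurable (fun q : c.Ωb × (ℝ × ℝ) => (q.1.2, c.cz l q.2)) :=
    (measurable_snd.comp measurable_fst).prodMk ((c.measurable_cz l).comp measurable_snd)
  exact c.Z.meas.comp h1

theorem measurable_G (l : Fin c.N) :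
    Measurable (fun q : c.Ωb × (ℝ × ℝ) => c.G l q.1 q.2) := by
  unfold G
  have h1 : Measurable (fun q : c.Ωb × (ℝ × ℝ) => (q.1.1, c.cd l q.2)) :=
    (measurable_fst.comp measurable_fst).prodMk ((c.measurable_cd l).comp measurable_snd)
  exact ((c.measurable_hot l).div_const _).mul (c.F.meas.comp h1)

theorem hot01 (l : Fin c.N) (b : c.Ωb) (y : ℝ × ℝ) : c.hot l b y = 0 ∨ c.hot l b y = 1 :=
  c.Z.z01 _ _

theorem hot_nonneg (l : Fin c.N) (b : c.Ωb) (y : ℝ × ℝ) : 0 ≤ c.hot l b y := by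
  rcases c.hot01 l b y with h | h <;> rw [h]; norm_num

theorem hot_le (l : Fin c.N) (b : c.Ωb) (y : ℝ × ℝ) : c.hot l b y ≤ 1 := by
  rcases c.hot01 l b y with h | h <;> rw [h]; norm_num

theorem L_pos (F : Fld) : 1 ≤ F.L := by
  have h1 := F.mean (0, 0)
  have hle : ∫ ω, F.g ω (0, 0) ∂F.P ≤ ∫ _ω, F.L ∂F.P := by
    refine integral_mono_of_nonneg (Eventually.of_forall fun ω => F.nonneg ω _)
      (integrable_const _) (Eventually.of_forall fun ω => F.le ω _)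
  rw [h1] at hle
  simpa using hle

theorem Fabs (F : Fld) (ω : F.Ω) (x : ℝ × ℝ) : |F.g ω x| ≤ F.L := by
  rw [abs_of_nonneg (F.nonneg ω x)]; exact F.le ω x

/-- the bound for `G` -/
noncomputable def LG : ℝ := c.F.L / c.β

theorem LG_ge : 1 ≤ c.LG := by
  unfold LG
  rw [le_div_iff₀ c.hβ0]
  have := L_pos c.F
  have := c.hβ1
  linarith

theorem G_nonneg (l : Fin c.N) (b : c.Ωb) (y : ℝ × ℝ) : 0 ≤ c.G l b y := by
  unfold G
  exact mul_nonneg (div_nonneg (c.hot_nonneg l b y) c.hβ0.le) (c.F.nonneg _ _)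

theorem G_le (l : Fin c.N) (b : c.Ωb) (y : ℝ × ℝ) : c.G l b y ≤ c.LG := by
  unfold G LG
  have h1 : c.hot l b y / c.β ≤ 1 / c.β := by
    gcongr
    · exact c.hβ0.le
    · exact c.hot_le l b y
  calc (c.hot l b y / c.β) * c.F.g b.1 (c.cd l y) ≤ (1 / c.β) * c.F.L :=
        mul_le_mul h1 (c.F.le _ _) (c.F.nonneg _ _) (by have := c.hβ0; positivity)
    _ = c.F.L / c.β := by ring

theorem G_abs (l : Fin c.N) (b : c.Ωb) (y : ℝ × ℝ) : |c.G l b y| ≤ c.LG := by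
  rw [abs_of_nonneg (c.G_nonneg l b y)]; exact c.G_le l b y

theorem noh_nonneg (w : c.Ωw) (y : ℝ × ℝ) : 0 ≤ c.noh w y :=
  Finset.prod_nonneg fun l _ => by linarith [c.hot_le l (w l) y]

theorem noh_le (w : c.Ωw) (y : ℝ × ℝ) : c.noh w y ≤ 1 :=
  Finset.prod_le_one (fun l _ => by linarith [c.hot_le l (w l) y])
    (fun l _ => by linarith [c.hot_nonneg l (w l) y])

theorem car_nonneg (w : c.Ωw) (y : ℝ × ℝ) : 0 ≤ c.car w y :=
  Finset.prod_nonneg fun l _ => c.G_nonneg l (w l) y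

theorem car_le (w : c.Ωw) (y : ℝ × ℝ) : c.car w y ≤ c.LG ^ c.N := by
  unfold car
  calc ∏ l, c.G l (w l) y ≤ ∏ _l : Fin c.N, c.LG :=
        Finset.prod_le_prod (fun l _ => c.G_nonneg l (w l) y) (fun l _ => c.G_le l (w l) y)
    _ = c.LG ^ c.N := by simp

theorem measurable_noh : Measurable (fun q : c.Ωw × (ℝ × ℝ) => c.noh q.1 q.2) := by
  unfold noh
  refine Finset.measurable_prod _ fun l _ => ?_
  have h1 : Measurable (fun q : c.Ωw × (ℝ × ℝ) => (q.1 l, q.2)) :=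
    ((measurable_pi_apply l).comp measurable_fst).prodMk measurable_snd
  exact measurable_const.sub ((c.measurable_hot l).comp h1)

theorem measurable_car : Measurable (fun q : c.Ωw × (ℝ × ℝ) => c.car q.1 q.2) := by
  unfold car
  refine Finset.measurable_prod _ fun l _ => ?_
  have h1 : Measurable (fun q : c.Ωw × (ℝ × ℝ) => (q.1 l, q.2)) :=
    ((measurable_pi_apply l).comp measurable_fst).prodMk measurable_snd
  exact (c.measurable_G l).comp h1

theorem κ_nonneg : 0 ≤ c.κ := by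
  unfold κ
  have : (1 - c.β) ^ c.N ≤ 1 := pow_le_one₀ (by linarith [c.hβ1]) (by linarith [c.hβ0])
  linarith

theorem κ_le : c.κ ≤ 1 := by
  unfold κ
  have : 0 ≤ (1 - c.β) ^ c.N := pow_nonneg (by linarith [c.hβ1]) _
  linarith

/-- two points are far apart for the cells of cluster `l` -/
def farz (l : Fin c.N) (y y' : ℝ × ℝ) : Prop := 1 ≤ dist (c.cz l y) (c.cz l y')

/-- two points are far apart for the inner game of cluster `l` -/
def fard (l : Fin c.N) (y y' : ℝ × ℝ) : Prop := c.F.B ≤ dist (c.cd l y) (c.cd l y')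

theorem Zint (y : ℝ × ℝ) : Integrable (fun s => c.Z.z s y) c.Z.P := by
  have hm : Measurable (fun s => c.Z.z s y) := c.Z.meas.comp (measurable_id.prodMk measurable_const)
  refine integrable_bdd hm 1 fun s => ?_
  rcases c.Z.z01 s y with h | h <;> rw [h] <;> simp

theorem Zint2 (y y' : ℝ × ℝ) : Integrable (fun s => c.Z.z s y * c.Z.z s y') c.Z.P := by
  have hm : ∀ y, Measurable (fun s => c.Z.z s y) :=
    fun y => c.Z.meas.comp (measurable_id.prodMk measurable_const)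
  refine integrable_bdd ((hm y).mul (hm y')) 1 fun s => ?_
  rcases c.Z.z01 s y with h | h <;> rcases c.Z.z01 s y' with h' | h' <;> rw [h, h'] <;> simp

theorem E_hot (l : Fin c.N) (y : ℝ × ℝ) : ∫ b, c.hot l b y ∂c.Pb = c.β := by
  unfold hot
  have := integral_prod_mul (μ := c.F.P) (ν := c.Z.P) (fun _ => (1 : ℝ))
    (fun s => c.Z.z s (c.cz l y))
  simp only [one_mul] at this
  rw [this, c.Z.mean]
  simp

theorem E_G (l : Fin c.N) (y : ℝ × ℝ) : ∫ b, c.G l b y ∂c.Pb = 1 := by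
  have h1 : ∀ b : c.Ωb, c.G l b y =
      c.F.g b.1 (c.cd l y) * (c.Z.z b.2 (c.cz l y) / c.β) := fun b => by
    unfold G hot; ring
  simp_rw [h1]
  rw [integral_prod_mul (μ := c.F.P) (ν := c.Z.P) (fun s => c.F.g s (c.cd l y))
    (fun s => c.Z.z s (c.cz l y) / c.β), c.F.mean, integral_div, c.Z.mean, div_self c.hβ0.ne']
  norm_num

theorem E_nn (l : Fin c.N) (y y' : ℝ × ℝ) (h : c.farz l y y') :
    ∫ b, (1 - c.hot l b y) * (1 - c.hot l b y') ∂c.Pb = (1 - c.β) ^ 2 := by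
  unfold hot
  have := integral_prod_mul (μ := c.F.P) (ν := c.Z.P) (fun _ => (1 : ℝ))
    (fun s => (1 - c.Z.z s (c.cz l y)) * (1 - c.Z.z s (c.cz l y')))
  simp only [one_mul] at this
  rw [this]
  have h2 : ∀ s, (1 - c.Z.z s (c.cz l y)) * (1 - c.Z.z s (c.cz l y')) =
      1 - c.Z.z s (c.cz l y) - c.Z.z s (c.cz l y') + c.Z.z s (c.cz l y) * c.Z.z s (c.cz l y') :=
    fun s => by ring
  simp_rw [h2]
  have i1 : Integrable (fun s => (1 : ℝ) - c.Z.z s (c.cz l y)) c.Z.P :=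
    (integrable_const 1).sub (c.Zint _)
  have i2 : Integrable (fun s => (1 : ℝ) - c.Z.z s (c.cz l y) - c.Z.z s (c.cz l y')) c.Z.P :=
    i1.sub (c.Zint _)
  rw [integral_add i2 (c.Zint2 _ _), integral_sub i1 (c.Zint _),
    integral_sub (integrable_const 1) (c.Zint _), c.Z.mean, c.Z.mean, c.Z.uncorr _ _ h]
  simp
  ring

theorem E_nG (l : Fin c.N) (y y' : ℝ × ℝ) (h : c.farz l y y') :
    ∫ b, (1 - c.hot l b y) * c.G l b y' ∂c.Pb = 1 - c.β := by
  have h1 : ∀ b : c.Ωb, (1 - c.hot l b y) * c.G l b y' =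
      c.F.g b.1 (c.cd l y') * ((1 - c.Z.z b.2 (c.cz l y)) * c.Z.z b.2 (c.cz l y') / c.β) :=
    fun b => by unfold G hot; ring
  simp_rw [h1]
  rw [integral_prod_mul (μ := c.F.P) (ν := c.Z.P) (fun s => c.F.g s (c.cd l y'))
    (fun s => (1 - c.Z.z s (c.cz l y)) * c.Z.z s (c.cz l y') / c.β), c.F.mean, integral_div]
  have h2 : ∀ s, (1 - c.Z.z s (c.cz l y)) * c.Z.z s (c.cz l y') =
      c.Z.z s (c.cz l y') - c.Z.z s (c.cz l y) * c.Z.z s (c.cz l y') := fun s => by ring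
  simp_rw [h2]
  rw [integral_sub (c.Zint _) (c.Zint2 _ _), c.Z.mean, c.Z.uncorr _ _ h]
  have := c.hβ0.ne'
  field_simp

theorem E_GG (l : Fin c.N) (y y' : ℝ × ℝ) (h : c.farz l y y') (h' : c.fard l y y') :
    ∫ b, c.G l b y * c.G l b y' ∂c.Pb = 1 := by
  have h1 : ∀ b : c.Ωb, c.G l b y * c.G l b y' =
      (c.F.g b.1 (c.cd l y) * c.F.g b.1 (c.cd l y')) *
        (c.Z.z b.2 (c.cz l y) * c.Z.z b.2 (c.cz l y') / c.β ^ 2) :=
    fun b => by unfold G hot; have := c.hβ0.ne'; field_simp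
  simp_rw [h1]
  rw [integral_prod_mul (μ := c.F.P) (ν := c.Z.P)
    (fun s => c.F.g s (c.cd l y) * c.F.g s (c.cd l y'))
    (fun s => c.Z.z s (c.cz l y) * c.Z.z s (c.cz l y') / c.β ^ 2), c.F.uncorr _ _ h',
    integral_div, c.Z.uncorr _ _ h]
  have := c.hβ0.ne'
  field_simp

end Cl

end Pool.Agent.H719R2.Sec
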