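import Pool.Agent.H719R2.Sec.RoundThm

set_option autoImplicit false

open MeasureTheory Set Filter Topology
open scoped ENNReal

namespace Pool.Agent.H719R2.Sec

/-- the constant field -/
noncomputable def cF : Fld where
  Ω := Unit
  mΩ := inferInstance
  P := Measure.dirac ()
  hP := inferInstance
  g := fun _ _ => 1
  L := 1
  B := 0
  meas := measurable_const
  nonneg := fun _ _ => zero_le_one
  le := fun _ _ => le_refl _
  mean := fun _ => by simp
  uncorr := fun _ _ _ => by simp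

namespace Cl

variable (c : Cl)

theorem κ_pos : 0 < c.κ := by
  unfold κ
  have h : (1 - c.β) ^ c.N < 1 := by
    refine pow_lt_one₀ (by linarith [c.hβ1]) (by linarith [c.hβ0]) ?_
    have := c.hN; omega
  linarith

theorem iterate (μ : Measure ℝ) [IsProbabilityMeasure μ] (hμ : ∀ᵐ a ∂μ, a ∈ Icc (0 : ℝ) 1)
    (C1 δ1 : ℝ) (R1 : Finset ℝ) (hS1 : Succ c.F μ C1 δ1 R1)
    (r0 R t1 θ : ℝ) (hG : c.Geo R1 r0 R t1 θ)
    (hμ' : ∀ᵐ a ∂(c.mixm μ), a ∈ Icc (0 : ℝ) 1) (t : ℝ) (ht : 0 < t) (A0 : ℝ)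
    (hA0 : A0 ≤ c.κ / (c.N * c.β) * C1 + (1 - 1 / c.N) * (1 - c.β) ^ (c.N - 1) - t)
    (e : ℝ) (he : c.err δ1 t1 θ t R1.card ≤ e) (he0 : 0 ≤ e) (n : ℕ) :
    ∃ F' : Fld, F'.L ≤ c.LG ^ c.N ∧ ∃ R' : Finset ℝ,
      Succ F' (c.mixm μ) A0 (((1 - c.β) ^ c.N) ^ n + e / c.κ) R' := by
  have hκ := c.κ_pos
  induction n with
  | zero =>
    refine ⟨cF, c.LGN_ge, ∅, by simp, fun x => ?_⟩
    have h1 : cF.P.real (fail cF (c.mixm μ) A0 ∅ x) ≤ 1 := measureReal_le_one
    have h2 : 0 ≤ e / c.κ := by positivity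
    simp only [pow_zero]
    linarith
  | succ n ih =>
    obtain ⟨Fn, hL, Rn, hn⟩ := ih
    obtain ⟨F', hL', R', hn'⟩ := c.round μ hμ C1 δ1 R1 hS1 r0 R t1 θ hG hμ' t ht Fn hL A0 hA0 _ Rn hn
    refine ⟨F', hL', R', hn'.1, fun x => (hn'.2 x).trans ?_⟩
    have h3 : (1 - c.β) ^ c.N = 1 - c.κ := by unfold κ; ring
    rw [pow_succ, h3]
    have h4 : (1 - c.κ) * ((1 - c.κ) ^ n + e / c.κ) + e = (1 - c.κ) ^ n * (1 - c.κ) + e / c.κ := by
      field_simp
      ring
    linarith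

theorem mixm_unif (μ : Measure ℝ) (E : Set ℝ) (k : ℝ≥0∞) (hE : MeasurableSet E)
    (hE1 : E ⊆ Icc 0 1) (hμ : μ = k • volume.restrict E) (hin : ∀ i, c.a i + 1 / c.H ≤ 1)
    (hHN : 1 / c.H < 1 / (c.N : ℝ)) :
    ∃ (E' : Set ℝ) (k' : ℝ≥0∞), MeasurableSet E' ∧ E' ⊆ Icc 0 1 ∧
      c.mixm μ = k' • volume.restrict E' := by
  have hH0 : 0 < c.H := by have := c.hH; linarith
  set φ : Fin c.N → ℝ → ℝ := fun i a => c.a i + a / c.H with hφ
  have hemb : ∀ i, MeasurableEmbedding (φ i) := by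
    intro i
    have h1 : φ i = (fun y => c.a i + y) ∘ (fun a => c.H⁻¹ * a) := by
      ext a; simp only [hφ, Function.comp_apply]; ring
    rw [h1]
    exact (measurableEmbedding_addLeft (c.a i)).comp
      (measurableEmbedding_mulLeft₀ (inv_ne_zero hH0.ne'))
  have hmap : ∀ i, (volume : Measure ℝ).map (φ i) = ENNReal.ofReal c.H • volume := by
    intro i
    have h1 : φ i = (fun y => c.a i + y) ∘ (fun a => c.H⁻¹ * a) := by
      ext a; simp only [hφ, Function.comp_apply]; ring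
    rw [h1, ← Measure.map_map (by fun_prop) (by fun_prop),
      Real.map_volume_mul_left (inv_ne_zero hH0.ne'), Measure.map_smul, map_add_left_eq_self,
      inv_inv, abs_of_pos hH0]
  have hres : ∀ i, (volume.restrict E).map (φ i) =
      ENNReal.ofReal c.H • (volume.restrict (φ i '' E)) := by
    intro i
    have h1 := (hemb i).restrict_map volume (φ i '' E)
    rw [(hemb i).injective.preimage_image, hmap i] at h1
    rw [← h1, Measure.restrict_smul]
  have hms : ∀ i, MeasurableSet (φ i '' E) := fun i => (hemb i).measurableSet_image.2 hE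
  have hdisj : Pairwise (Function.onFun Disjoint (fun i => φ i '' E)) := by
    intro i j hij
    rw [Function.onFun, Set.disjoint_left]
    rintro _ ⟨e, he, rfl⟩ ⟨e', he', h⟩
    have h1 := hE1 he
    have h2 := hE1 he'
    rw [mem_Icc] at h1 h2
    have hs := c.hsep i j hij
    simp only [hφ] at h
    have h3 : c.a i - c.a j = (e' - e) / c.H := by
      rw [sub_div]; linarith
    have h4 : |c.a i - c.a j| ≤ 1 / c.H := by
      rw [h3, abs_div, abs_of_pos hH0]
      gcongr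
      rw [abs_le]
      constructor <;> linarith
    linarith
  refine ⟨⋃ i, φ i '' E, (c.N : ℝ≥0∞)⁻¹ * (k * ENNReal.ofReal c.H),
    MeasurableSet.iUnion hms, ?_, ?_⟩
  · rintro y hy
    rw [mem_iUnion] at hy
    obtain ⟨i, e, he, rfl⟩ := hy
    have h1 := hE1 he
    rw [mem_Icc] at h1
    have ha := c.ha i
    rw [mem_Icc] at ha
    have hi := hin i
    have h2 : e / c.H ≤ 1 / c.H := by gcongr; exact h1.2
    have h3 : 0 ≤ e / c.H := div_nonneg h1.1 hH0.le
    simp only [hφ]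
    rw [mem_Icc]
    constructor <;> linarith
  · unfold mixm
    rw [Measure.restrict_iUnion hdisj hms, Measure.sum_fintype, mul_smul]
    congr 1
    rw [Finset.smul_sum]
    refine Finset.sum_congr rfl fun i _ => ?_
    rw [hμ, Measure.map_smul]
    change k • (volume.restrict E).map (φ i) = _
    rw [hres i, smul_smul]

end Cl

/-- the game at level `C` -/
def Game (C : ℝ) : Prop :=
  ∀ δ : ℝ, 0 < δ → δ < 1 → ∃ (μ : Measure ℝ) (_ : IsProbabilityMeasure μ) (E : Set ℝ) (k : ℝ≥0∞),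
    MeasurableSet E ∧ E ⊆ Icc 0 1 ∧ μ = k • volume.restrict E ∧
    ∃ (F : Fld) (R : Finset ℝ), Succ F μ (C - δ) δ R

theorem game_one : Game 1 := by
  intro δ hδ hδ1
  have hp : IsProbabilityMeasure ((volume : Measure ℝ).restrict (Icc (0 : ℝ) 1)) := by
    constructor
    simp
  refine ⟨volume.restrict (Icc (0 : ℝ) 1), hp, Icc 0 1, 1, measurableSet_Icc, le_refl _,
    by simp, cF, {1}, by simp, fun x => ?_⟩
  have : fail cF (volume.restrict (Icc (0 : ℝ) 1)) (1 - δ) {1} x = ∅ := by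
    ext ω
    unfold fail Av
    simp only [Finset.mem_singleton, forall_eq, mem_ofPred_eq, mem_empty_iff_false, iff_false,
      not_lt]
    simp only [cF]
    simp
    linarith
  rw [this]
  simp
  linarith

theorem ae_of_unif (μ : Measure ℝ) (E : Set ℝ) (k : ℝ≥0∞) (hE : MeasurableSet E)
    (hE1 : E ⊆ Icc 0 1) (hμ : μ = k • volume.restrict E) : ∀ᵐ a ∂μ, a ∈ Icc (0 : ℝ) 1 := by
  rw [hμ]
  have h : ∀ᵐ a ∂((volume : Measure ℝ).restrict E), a ∈ Icc (0 : ℝ) 1 := by
    filter_upwards [ae_restrict_mem hE] with a ha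
    exact hE1 ha
  exact Measure.ae_smul_measure h k

end Pool.Agent.H719R2.Sec
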