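import Pool.Agent.H719R2.Sec.Field

set_option autoImplicit false

open MeasureTheory Set Filter Topology
open scoped ENNReal

namespace Pool.Agent.H719R2.Sec

/-- bounded measurable functions -/
def BM {X : Type*} [MeasurableSpace X] (f : X → ℝ) : Prop := Measurable f ∧ ∃ K, ∀ x, |f x| ≤ K

namespace BM

variable {X Y : Type*} [MeasurableSpace X] [MeasurableSpace Y]

theorem integrable {f : X → ℝ} (hf : BM f) (P : Measure X) [IsFiniteMeasure P] : Integrable f P := by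
  obtain ⟨h1, K, h2⟩ := hf
  exact integrable_bdd h1 K h2

theorem const (a : ℝ) : BM (fun _ : X => a) := ⟨measurable_const, |a|, fun _ => le_refl _⟩

theorem mul {f g : X → ℝ} (hf : BM f) (hg : BM g) : BM (fun x => f x * g x) := by
  obtain ⟨h1, K, h2⟩ := hf
  obtain ⟨h3, L, h4⟩ := hg
  refine ⟨h1.mul h3, K * L, fun x => ?_⟩
  rw [abs_mul]
  exact mul_le_mul (h2 x) (h4 x) (abs_nonneg _) ((abs_nonneg _).trans (h2 x))

theorem add {f g : X → ℝ} (hf : BM f) (hg : BM g) : BM (fun x => f x + g x) := by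
  obtain ⟨h1, K, h2⟩ := hf
  obtain ⟨h3, L, h4⟩ := hg
  exact ⟨h1.add h3, K + L, fun x => (abs_add_le _ _).trans (add_le_add (h2 x) (h4 x))⟩

theorem sub {f g : X → ℝ} (hf : BM f) (hg : BM g) : BM (fun x => f x - g x) := by
  obtain ⟨h1, K, h2⟩ := hf
  obtain ⟨h3, L, h4⟩ := hg
  exact ⟨h1.sub h3, K + L, fun x => (abs_sub _ _).trans (add_le_add (h2 x) (h4 x))⟩

theorem comp {f : X → ℝ} (hf : BM f) {φ : Y → X} (hφ : Measurable φ) : BM (fun y => f (φ y)) := by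
  obtain ⟨h1, K, h2⟩ := hf
  exact ⟨h1.comp hφ, K, fun y => h2 _⟩

theorem prod {ι : Type*} (s : Finset ι) {f : ι → X → ℝ} (hf : ∀ i, BM (f i)) :
    BM (fun x => ∏ i ∈ s, f i x) := by
  classical
  induction s using Finset.induction_on with
  | empty => simpa using BM.const 1
  | insert a s ha ih =>
    simp only [Finset.prod_insert ha]
    exact (hf a).mul ih

end BM

theorem Fld.bm (F : Fld) (x : ℝ × ℝ) : BM (fun ω => F.g ω x) :=
  ⟨F.meas.comp (measurable_id.prodMk measurable_const), F.L, fun ω => Cl.Fabs F ω x⟩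

namespace Cl

variable (c : Cl)

theorem bm_hot (l : Fin c.N) (y : ℝ × ℝ) : BM (fun b => c.hot l b y) :=
  ⟨(c.measurable_hot l).comp (measurable_id.prodMk measurable_const), 1, fun b => by
    rw [abs_of_nonneg (c.hot_nonneg l b y)]; exact c.hot_le l b y⟩

theorem bm_G (l : Fin c.N) (y : ℝ × ℝ) : BM (fun b => c.G l b y) :=
  ⟨(c.measurable_G l).comp (measurable_id.prodMk measurable_const), c.LG, fun b => c.G_abs l b y⟩

theorem bm_nh (l : Fin c.N) (y : ℝ × ℝ) : BM (fun b => 1 - c.hot l b y) :=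
  (BM.const 1).sub (c.bm_hot l y)

theorem E_nh (l : Fin c.N) (y : ℝ × ℝ) : ∫ b, (1 - c.hot l b y) ∂c.Pb = 1 - c.β := by
  rw [integral_sub (integrable_const 1) ((c.bm_hot l y).integrable _), c.E_hot]
  simp

section product

variable {Ωn : Type} [MeasurableSpace Ωn] (Pn : Measure Ωn) [IsProbabilityMeasure Pn]

theorem prodInt (f : Fin c.N → c.Ωb → ℝ) (s : Ωn → ℝ) :
    ∫ q : c.Ωw × Ωn, (∏ l, f l (q.1 l)) * s q.2 ∂(c.Pw.prod Pn) =
      (∏ l, ∫ b, f l b ∂c.Pb) * ∫ v, s v ∂Pn := by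
  rw [integral_prod_mul (μ := c.Pw) (ν := Pn) (fun w => ∏ l, f l (w l)) s,
    integral_fintype_prod_eq_prod]

theorem bm_prod {f : Fin c.N → c.Ωb → ℝ} (hf : ∀ l, BM (f l)) {s : Ωn → ℝ} (hs : BM s) :
    BM (fun q : c.Ωw × Ωn => (∏ l, f l (q.1 l)) * s q.2) := by
  refine BM.mul (BM.prod _ fun l => ?_) (hs.comp measurable_snd)
  exact (hf l).comp ((measurable_pi_apply l).comp measurable_fst)

theorem prodInt2 (f f' : Fin c.N → c.Ωb → ℝ) (s s' : Ωn → ℝ) :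
    ∫ q : c.Ωw × Ωn, ((∏ l, f l (q.1 l)) * s q.2) * ((∏ l, f' l (q.1 l)) * s' q.2)
      ∂(c.Pw.prod Pn) =
      (∏ l, ∫ b, f l b * f' l b ∂c.Pb) * ∫ v, s v * s' v ∂Pn := by
  rw [← c.prodInt Pn (fun l b => f l b * f' l b) (fun v => s v * s' v)]
  congr 1
  ext q
  rw [Finset.prod_mul_distrib]
  ring

theorem cov_zero (A B A' B' : Fin c.N → c.Ωb → ℝ) (s t s' t' : Ωn → ℝ)
    (hA : ∀ l, BM (A l)) (hB : ∀ l, BM (B l)) (hA' : ∀ l, BM (A' l)) (hB' : ∀ l, BM (B' l))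
    (hs : BM s) (ht : BM t) (hs' : BM s') (ht' : BM t')
    (h1 : ∀ l, ∫ b, A l b * B' l b ∂c.Pb = ∫ b, A l b * A' l b ∂c.Pb)
    (h2 : ∀ l, ∫ b, B l b * A' l b ∂c.Pb = ∫ b, A l b * A' l b ∂c.Pb)
    (h3 : ∀ l, ∫ b, B l b * B' l b ∂c.Pb = ∫ b, A l b * A' l b ∂c.Pb)
    (k1 : ∫ v, s v * t' v ∂Pn = ∫ v, s v * s' v ∂Pn)
    (k2 : ∫ v, t v * s' v ∂Pn = ∫ v, s v * s' v ∂Pn)
    (k3 : ∫ v, t v * t' v ∂Pn = ∫ v, s v * s' v ∂Pn) :
    ∫ q : c.Ωw × Ωn, ((∏ l, A l (q.1 l)) * s q.2 - (∏ l, B l (q.1 l)) * t q.2) *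
      ((∏ l, A' l (q.1 l)) * s' q.2 - (∏ l, B' l (q.1 l)) * t' q.2) ∂(c.Pw.prod Pn) = 0 := by
  have e : ∀ q : c.Ωw × Ωn, ((∏ l, A l (q.1 l)) * s q.2 - (∏ l, B l (q.1 l)) * t q.2) *
      ((∏ l, A' l (q.1 l)) * s' q.2 - (∏ l, B' l (q.1 l)) * t' q.2) =
      (((∏ l, A l (q.1 l)) * s q.2) * ((∏ l, A' l (q.1 l)) * s' q.2) -
       ((∏ l, A l (q.1 l)) * s q.2) * ((∏ l, B' l (q.1 l)) * t' q.2)) -
      (((∏ l, B l (q.1 l)) * t q.2) * ((∏ l, A' l (q.1 l)) * s' q.2) -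
       ((∏ l, B l (q.1 l)) * t q.2) * ((∏ l, B' l (q.1 l)) * t' q.2)) := fun q => by ring
  simp_rw [e]
  have b1 := (c.bm_prod hA hs).mul (c.bm_prod hA' hs')
  have b2 := (c.bm_prod hA hs).mul (c.bm_prod hB' ht')
  have b3 := (c.bm_prod hB ht).mul (c.bm_prod hA' hs')
  have b4 := (c.bm_prod hB ht).mul (c.bm_prod hB' ht')
  rw [integral_sub ((b1.sub b2).integrable _) ((b3.sub b4).integrable _),
    integral_sub (b1.integrable _) (b2.integrable _),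
    integral_sub (b3.integrable _) (b4.integrable _),
    c.prodInt2, c.prodInt2, c.prodInt2, c.prodInt2, k1, k2, k3]
  simp_rw [h1, h2, h3]
  ring

end product

theorem far_of_dist (l : Fin c.N) (y y' : ℝ × ℝ)
    (h : max c.Λ c.F.B + max 1 c.F.B ≤ dist y y') : c.farz l y y' ∧ c.fard l y y' := by
  have hΛ := c.hΛ
  have hM := c.hM
  have hH := c.hH
  have ha := c.ha l
  unfold farz fard cz cd
  simp only [Prod.dist_eq, Real.dist_eq, le_max_iff]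
  rw [Prod.dist_eq, Real.dist_eq, Real.dist_eq] at h
  set u := y.1 - y'.1 with hu
  set v := y.2 - y'.2 with hv
  have e1 : y.1 / c.Λ - y'.1 / c.Λ = u / c.Λ := by rw [hu]; ring
  have e2 : c.M * (y.2 - c.a l * y.1) - c.M * (y'.2 - c.a l * y'.1) = c.M * (v - c.a l * u) := by
    rw [hu, hv]; ring
  have e3 : c.H * (y.2 - c.a l * y.1) - c.H * (y'.2 - c.a l * y'.1) = c.H * (v - c.a l * u) := by
    rw [hu, hv]; ring
  rw [e1, e2, e3, abs_div, abs_mul, abs_mul, abs_of_pos (by linarith : (0 : ℝ) < c.Λ),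
    abs_of_pos (by linarith : (0 : ℝ) < c.M), abs_of_pos (by linarith : (0 : ℝ) < c.H)]
  have m1 : 1 ≤ max 1 c.F.B := le_max_left _ _
  have m2 : c.F.B ≤ max 1 c.F.B := le_max_right _ _
  have m3 : c.Λ ≤ max c.Λ c.F.B := le_max_left _ _
  have m4 : c.F.B ≤ max c.Λ c.F.B := le_max_right _ _
  by_cases hc : max c.Λ c.F.B ≤ |u|
  · refine ⟨Or.inl ?_, Or.inl (m4.trans hc)⟩
    rw [le_div_iff₀ (by linarith)]
    linarith
  · rw [not_le] at hc
    have hv1 : max c.Λ c.F.B + max 1 c.F.B ≤ |v| := by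
      rcases le_max_iff.1 h with h' | h'
      · linarith
      · exact h'
    have h1 : |c.a l * u| ≤ |u| := by
      rw [abs_mul, abs_of_nonneg ha.1]
      exact mul_le_of_le_one_left (abs_nonneg _) ha.2
    have h2 : |v| - |c.a l * u| ≤ |v - c.a l * u| := abs_sub_abs_le_abs_sub _ _
    have h3 : max 1 c.F.B ≤ |v - c.a l * u| := by linarith
    refine ⟨Or.inr ?_, Or.inr ?_⟩
    · calc (1 : ℝ) = 1 * 1 := by norm_num
        _ ≤ c.M * |v - c.a l * u| := mul_le_mul hM (by linarith) (by norm_num) (by linarith)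
    · calc c.F.B ≤ 1 * |v - c.a l * u| := by linarith
        _ ≤ c.H * |v - c.a l * u| := mul_le_mul_of_nonneg_right hH (abs_nonneg _)

/-- The new field of a round. -/
noncomputable def newg (Fn : Fld) (M' : ℝ) (q : c.Ωw × Fn.Ω) (y : ℝ × ℝ) : ℝ :=
  c.noh q.1 y * Fn.g q.2 (M' * y.1, M' * y.2) + c.κ * c.car q.1 y

theorem noh_mul_car (w : c.Ωw) (y : ℝ × ℝ) : c.noh w y = 0 ∨ c.car w y = 0 := by
  by_cases h : ∃ l, c.hot l (w l) y = 1
  · left
    obtain ⟨l, hl⟩ := h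
    unfold noh
    exact Finset.prod_eq_zero (Finset.mem_univ l) (by rw [hl]; ring)
  · right
    push Not at h
    have := c.hN
    unfold car
    refine Finset.prod_eq_zero (Finset.mem_univ ⟨0, this⟩) ?_
    have h0 : c.hot ⟨0, this⟩ (w ⟨0, this⟩) y = 0 := by
      rcases c.hot01 ⟨0, this⟩ (w ⟨0, this⟩) y with h' | h'
      · exact h'
      · exact absurd h' (h _)
    unfold G
    rw [h0]; simp

theorem noh_01 (w : c.Ωw) (y : ℝ × ℝ) : 0 ≤ c.noh w y ∧ c.noh w y ≤ 1 :=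
  ⟨c.noh_nonneg w y, c.noh_le w y⟩

theorem LGN_ge : 1 ≤ c.LG ^ c.N := one_le_pow₀ c.LG_ge

theorem newg_nonneg (Fn : Fld) (M' : ℝ) (q : c.Ωw × Fn.Ω) (y : ℝ × ℝ) :
    0 ≤ c.newg Fn M' q y := by
  unfold newg
  have := mul_nonneg (c.noh_nonneg q.1 y) (Fn.nonneg q.2 (M' * y.1, M' * y.2))
  have := mul_nonneg c.κ_nonneg (c.car_nonneg q.1 y)
  linarith

theorem newg_le (Fn : Fld) (M' : ℝ) (hL : Fn.L ≤ c.LG ^ c.N) (q : c.Ωw × Fn.Ω) (y : ℝ × ℝ) :
    c.newg Fn M' q y ≤ c.LG ^ c.N := by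
  unfold newg
  rcases c.noh_mul_car q.1 y with h | h
  · rw [h, zero_mul, zero_add]
    calc c.κ * c.car q.1 y ≤ 1 * c.car q.1 y :=
          mul_le_mul_of_nonneg_right c.κ_le (c.car_nonneg _ _)
      _ ≤ c.LG ^ c.N := by rw [one_mul]; exact c.car_le _ _
  · rw [h, mul_zero, add_zero]
    calc c.noh q.1 y * Fn.g q.2 (M' * y.1, M' * y.2)
        ≤ 1 * Fn.g q.2 (M' * y.1, M' * y.2) :=
          mul_le_mul_of_nonneg_right (c.noh_le _ _) (Fn.nonneg _ _)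
      _ ≤ c.LG ^ c.N := by rw [one_mul]; exact (Fn.le _ _).trans hL

theorem measurable_newg (Fn : Fld) (M' : ℝ) :
    Measurable (fun q : (c.Ωw × Fn.Ω) × (ℝ × ℝ) => c.newg Fn M' q.1 q.2) := by
  unfold newg
  have h1 : Measurable (fun q : (c.Ωw × Fn.Ω) × (ℝ × ℝ) => (q.1.1, q.2)) := by fun_prop
  have h2 : Measurable (fun q : (c.Ωw × Fn.Ω) × (ℝ × ℝ) =>
      (q.1.2, ((M' * q.2.1, M' * q.2.2) : ℝ × ℝ))) := by fun_prop
  exact ((c.measurable_noh.comp h1).mul (Fn.meas.comp h2)).add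
    ((c.measurable_car.comp h1).const_mul _)

theorem bm_noh (y : ℝ × ℝ) : BM (fun w => c.noh w y) :=
  ⟨c.measurable_noh.comp (measurable_id.prodMk measurable_const), 1, fun w => by
    rw [abs_of_nonneg (c.noh_nonneg w y)]; exact c.noh_le w y⟩

theorem bm_car (y : ℝ × ℝ) : BM (fun w => c.car w y) :=
  ⟨c.measurable_car.comp (measurable_id.prodMk measurable_const), c.LG ^ c.N, fun w => by
    rw [abs_of_nonneg (c.car_nonneg w y)]; exact c.car_le w y⟩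

theorem newg_mean (Fn : Fld) (M' : ℝ) (y : ℝ × ℝ) :
    ∫ q, c.newg Fn M' q y ∂(c.Pw.prod Fn.P) = 1 := by
  unfold newg
  have b1 := (c.bm_prod (fun l => c.bm_nh l y) (Fn.bm (M' * y.1, M' * y.2)))
  have b2 := (c.bm_prod (fun l => c.bm_G l y) (BM.const (X := Fn.Ω) c.κ))
  have e : ∀ q : c.Ωw × Fn.Ω, c.noh q.1 y * Fn.g q.2 (M' * y.1, M' * y.2) + c.κ * c.car q.1 y =
      (∏ l, (1 - c.hot l (q.1 l) y)) * Fn.g q.2 (M' * y.1, M' * y.2) +
      (∏ l, c.G l (q.1 l) y) * c.κ := fun q => by unfold noh car; ring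
  simp_rw [e]
  rw [integral_add (b1.integrable _) (b2.integrable _),
    c.prodInt Fn.P (fun l b => 1 - c.hot l b y) (fun v => Fn.g v (M' * y.1, M' * y.2)),
    c.prodInt Fn.P (fun l b => c.G l b y) (fun _ => c.κ)]
  simp_rw [c.E_nh, c.E_G, Fn.mean]
  simp [κ]

theorem newg_uncorr (Fn : Fld) (M' : ℝ) (hM' : 1 ≤ M') (y y' : ℝ × ℝ)
    (h : max Fn.B (max c.Λ c.F.B + max 1 c.F.B) ≤ dist y y') :
    ∫ q, c.newg Fn M' q y * c.newg Fn M' q y' ∂(c.Pw.prod Fn.P) = 1 := by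
  have hf := fun l => c.far_of_dist l y y' ((le_max_right _ _).trans h)
  have hn : Fn.B ≤ dist ((M' * y.1, M' * y.2) : ℝ × ℝ) (M' * y'.1, M' * y'.2) := by
    have h0 : dist ((M' * y.1, M' * y.2) : ℝ × ℝ) (M' * y'.1, M' * y'.2) = M' * dist y y' := by
      rw [Prod.dist_eq, Prod.dist_eq, Real.dist_eq, Real.dist_eq, Real.dist_eq, Real.dist_eq,
        ← mul_sub, ← mul_sub, abs_mul, abs_mul, abs_of_pos (by linarith : (0 : ℝ) < M'),
        mul_max_of_nonneg _ _ (by linarith)]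
    rw [h0]
    calc Fn.B ≤ 1 * dist y y' := by rw [one_mul]; exact (le_max_left _ _).trans h
      _ ≤ M' * dist y y' := mul_le_mul_of_nonneg_right hM' dist_nonneg
  have hf' : ∀ l, c.farz l y' y := fun l => by
    have := (hf l).1
    unfold farz at *
    rwa [dist_comm]
  unfold newg
  set u := ((M' * y.1, M' * y.2) : ℝ × ℝ)
  set u' := ((M' * y'.1, M' * y'.2) : ℝ × ℝ)
  have b1 := (c.bm_prod (fun l => c.bm_nh l y) (Fn.bm u))
  have b2 := (c.bm_prod (fun l => c.bm_G l y) (BM.const (X := Fn.Ω) c.κ))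
  have b1' := (c.bm_prod (fun l => c.bm_nh l y') (Fn.bm u'))
  have b2' := (c.bm_prod (fun l => c.bm_G l y') (BM.const (X := Fn.Ω) c.κ))
  have e : ∀ q : c.Ωw × Fn.Ω, (c.noh q.1 y * Fn.g q.2 u + c.κ * c.car q.1 y) *
      (c.noh q.1 y' * Fn.g q.2 u' + c.κ * c.car q.1 y') =
      (((∏ l, (1 - c.hot l (q.1 l) y)) * Fn.g q.2 u) *
       ((∏ l, (1 - c.hot l (q.1 l) y')) * Fn.g q.2 u') +
       ((∏ l, (1 - c.hot l (q.1 l) y)) * Fn.g q.2 u) * ((∏ l, c.G l (q.1 l) y') * c.κ)) +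
      (((∏ l, (1 - c.hot l (q.1 l) y')) * Fn.g q.2 u') * ((∏ l, c.G l (q.1 l) y) * c.κ) +
       ((∏ l, c.G l (q.1 l) y) * c.κ) * ((∏ l, c.G l (q.1 l) y') * c.κ)) :=
    fun q => by unfold noh car; ring
  simp_rw [e]
  rw [integral_add (((b1.mul b1').add (b1.mul b2')).integrable _)
      (((b1'.mul b2).add (b2.mul b2')).integrable _),
    integral_add ((b1.mul b1').integrable _) ((b1.mul b2').integrable _),
    integral_add ((b1'.mul b2).integrable _) ((b2.mul b2').integrable _),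
    c.prodInt2 Fn.P (fun l b => 1 - c.hot l b y) (fun l b => 1 - c.hot l b y')
      (fun v => Fn.g v u) (fun v => Fn.g v u'),
    c.prodInt2 Fn.P (fun l b => 1 - c.hot l b y) (fun l b => c.G l b y')
      (fun v => Fn.g v u) (fun v => c.κ),
    c.prodInt2 Fn.P (fun l b => 1 - c.hot l b y') (fun l b => c.G l b y)
      (fun v => Fn.g v u') (fun v => c.κ),
    c.prodInt2 Fn.P (fun l b => c.G l b y) (fun l b => c.G l b y')
      (fun v => c.κ) (fun v => c.κ)]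
  have f1 : ∀ l, ∫ b, (1 - c.hot l b y) * (1 - c.hot l b y') ∂c.Pb = (1 - c.β) ^ 2 :=
    fun l => c.E_nn l y y' (hf l).1
  have f2 : ∀ l, ∫ b, (1 - c.hot l b y) * c.G l b y' ∂c.Pb = 1 - c.β :=
    fun l => c.E_nG l y y' (hf l).1
  have f3 : ∀ l, ∫ b, (1 - c.hot l b y') * c.G l b y ∂c.Pb = 1 - c.β :=
    fun l => c.E_nG l y' y (hf' l)
  have f4 : ∀ l, ∫ b, c.G l b y * c.G l b y' ∂c.Pb = 1 :=
    fun l => c.E_GG l y y' (hf l).1 (hf l).2
  have f5 : ∫ v, Fn.g v u * Fn.g v u' ∂Fn.P = 1 := Fn.uncorr _ _ hn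
  have f6 : ∀ u, ∫ v, Fn.g v u * c.κ ∂Fn.P = c.κ := fun u => by
    rw [integral_mul_const, Fn.mean, one_mul]
  simp_rw [f1, f2, f3, f4, f5, f6]
  simp only [Finset.prod_const, Finset.card_univ, Fintype.card_fin, integral_const,
    probReal_univ, smul_eq_mul]
  have g1 : ((1 - c.β) ^ 2) ^ c.N = ((1 - c.β) ^ c.N) ^ 2 := by rw [← pow_mul, ← pow_mul, mul_comm]
  rw [g1]
  unfold κ
  ring

/-- The new field of a round. -/
noncomputable def new (Fn : Fld) (M' : ℝ) (hM' : 1 ≤ M') (hL : Fn.L ≤ c.LG ^ c.N) : Fld where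
  Ω := c.Ωw × Fn.Ω
  mΩ := inferInstance
  P := c.Pw.prod Fn.P
  hP := inferInstance
  g := c.newg Fn M'
  L := c.LG ^ c.N
  B := max Fn.B (max c.Λ c.F.B + max 1 c.F.B)
  meas := c.measurable_newg Fn M'
  nonneg := c.newg_nonneg Fn M'
  le := c.newg_le Fn M' hL
  mean := c.newg_mean Fn M'
  uncorr := c.newg_uncorr Fn M' hM'

end Cl

end Pool.Agent.H719R2.Sec
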