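import Pool.Agent.H719R2.Sec.Event

set_option autoImplicit false

open MeasureTheory Set Filter Topology
open scoped ENNReal

namespace Pool.Agent.H719R2.Sec

namespace Cl

variable (c : Cl)

theorem meas_right {X Y : Type*} [MeasurableSpace X] [MeasurableSpace Y] {f : X → Y → ℝ}
    (h : Measurable (fun q : X × Y => f q.1 q.2)) (x : X) : Measurable (f x) :=
  h.comp measurable_prodMk_left

theorem bm_newg (Fn : Fld) (M' : ℝ) (hL : Fn.L ≤ c.LG ^ c.N) (q : c.Ωw × Fn.Ω) :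
    BM (c.newg Fn M' q) :=
  ⟨meas_right (f := c.newg Fn M') (c.measurable_newg Fn M') q, c.LG ^ c.N, fun y => by
    rw [abs_of_nonneg (c.newg_nonneg Fn M' q y)]; exact c.newg_le Fn M' hL q y⟩

theorem _root_.Pool.Agent.H719R2.Sec.Fld.bm' (F : Fld) (ω : F.Ω) : BM (F.g ω) :=
  ⟨F.meas.comp measurable_prodMk_left, F.L, fun y => Fabs F ω y⟩

/-- the constancy property of a bad set -/
def CstSet (l : Fin c.N) (x : ℝ × ℝ) (θ : ℝ) (S : Set c.Z.Ω) : Prop :=
  ∀ ω, ω ∉ S → ∀ y, dist (c.cz l x) y ≤ θ → c.Z.z ω y = c.Z.z ω (c.cz l x)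

theorem hot_cst (l : Fin c.N) (w : c.Ωb) (x y : ℝ × ℝ) (θ : ℝ) (S : Set c.Z.Ω)
    (hS : c.CstSet l x θ S) (hw : w.2 ∉ S) (hd : dist (c.cz l x) (c.cz l y) ≤ θ) :
    c.hot l w y = c.hot l w x := hS w.2 hw _ hd

theorem caseA (μ' : Measure ℝ) [IsProbabilityMeasure μ'] (hμ' : ∀ᵐ a ∂μ', a ∈ Icc (0 : ℝ) 1)
    (Fn : Fld) (M' : ℝ) (hM' : 0 < M') (hL : Fn.L ≤ c.LG ^ c.N) (q : c.Ωw × Fn.Ω) (x : ℝ × ℝ)
    (θ : ℝ) (S : Fin c.N → Set c.Z.Ω) (hS : ∀ l, c.CstSet l x θ (S l))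
    (hq : ∀ l, (q.1 l).2 ∉ S l) (h0 : ∀ l, c.hot l (q.1 l) x = 0) (r : ℝ) (hr : 0 < r)
    (hr2 : c.M * (r / M') ≤ θ) :
    Av μ' r (Fn.g q.2) (M' * x.1, M' * x.2) ≤ Av μ' (r / M') (c.newg Fn M' q) x := by
  have hΛ := c.hΛ
  have hM := c.hM
  unfold Av
  have b1 : BM (fun p : ℝ × ℝ => Fn.g q.2 (M' * x.1 - r * p.1, M' * x.2 - r * p.1 * p.2)) :=
    (Fn.bm' q.2).comp (by fun_prop)
  have b2 : BM (fun p : ℝ × ℝ => c.newg Fn M' q (x.1 - r / M' * p.1, x.2 - r / M' * p.1 * p.2)) :=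
    (c.bm_newg Fn M' hL q).comp (by fun_prop)
  refine integral_mono_ae (b1.integrable _) (b2.integrable _) ?_
  filter_upwards [nu_ae μ' hμ'] with p hp
  have hp1 := hp.1
  have hp2 := hp.2
  rw [mem_Ioc] at hp1
  rw [mem_Icc] at hp2
  set y : ℝ × ℝ := (x.1 - r / M' * p.1, x.2 - r / M' * p.1 * p.2) with hy
  have e1 : M' * y.1 = M' * x.1 - r * p.1 := by rw [hy]; field_simp
  have e2 : M' * y.2 = M' * x.2 - r * p.1 * p.2 := by rw [hy]; field_simp
  have hs : 0 < r / M' := by positivity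
  have hnoh : c.noh q.1 y = 1 := by
    unfold noh
    refine Finset.prod_eq_one fun l _ => ?_
    have hd : dist (c.cz l x) (c.cz l y) ≤ θ := by
      have ha := c.ha l
      rw [mem_Icc] at ha
      rw [Prod.dist_eq, max_le_iff, Real.dist_eq, Real.dist_eq]
      unfold cz
      have f1 : x.1 / c.Λ - y.1 / c.Λ = (r / M') * p.1 / c.Λ := by rw [hy]; ring
      have f2 : c.M * (x.2 - c.a l * x.1) - c.M * (y.2 - c.a l * y.1) =
          c.M * (r / M') * (p.1 * (p.2 - c.a l)) := by rw [hy]; ring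
      simp only
      rw [f1, f2]
      constructor
      · rw [abs_of_nonneg (by have := hp1.1.le; positivity)]
        refine le_trans ?_ hr2
        rw [div_le_iff₀ (by linarith)]
        calc r / M' * p.1 ≤ r / M' * 1 := by gcongr; exact hp1.2
          _ = 1 * (r / M') * 1 := by ring
          _ ≤ c.M * (r / M') * c.Λ := by gcongr
      · rw [abs_mul, abs_of_nonneg (by positivity : 0 ≤ c.M * (r / M'))]
        refine le_trans ?_ hr2
        have : |p.1 * (p.2 - c.a l)| ≤ 1 := by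
          rw [abs_mul, abs_of_nonneg hp1.1.le]
          refine mul_le_one₀ hp1.2 (abs_nonneg _) ?_
          rw [abs_le]
          constructor <;> linarith [ha.1, ha.2, hp2.1, hp2.2]
        calc c.M * (r / M') * |p.1 * (p.2 - c.a l)| ≤ c.M * (r / M') * 1 := by gcongr
          _ = c.M * (r / M') := mul_one _
    rw [c.hot_cst l (q.1 l) x y θ (S l) (hS l) (hq l) hd, h0 l, sub_zero]
  unfold newg
  rw [hnoh, one_mul, e1, e2]
  have := mul_nonneg c.κ_nonneg (c.car_nonneg q.1 y)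
  linarith

theorem caseB (μ : Measure ℝ) [IsProbabilityMeasure μ] (hμ : ∀ᵐ a ∂μ, a ∈ Icc (0 : ℝ) 1)
    (R1 : Finset ℝ) (r0 R t1 θ : ℝ) (hG : c.Geo R1 r0 R t1 θ)
    (Fn : Fld) (M' : ℝ) (hL : Fn.L ≤ c.LG ^ c.N) (q : c.Ωw × Fn.Ω) (x : ℝ × ℝ)
    (S : Fin c.N → Set c.Z.Ω) (hS : ∀ l, c.CstSet l x θ (S l))
    (hq : ∀ l, (q.1 l).2 ∉ S l) (i : Fin c.N) (hi : c.hot i (q.1 i) x = 1)
    (ho : ∀ l, l ≠ i → c.hot l (q.1 l) x = 0) (r : ℝ) (hr : r ∈ R1) (C1 : ℝ)
    (hC : C1 ≤ Av μ r (c.F.g (q.1 i).1) (c.cd i x)) (t : ℝ)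
    (h1 : ∀ l, |∫ p, c.U1 l r x q p ∂(nu μ)| < t)
    (h3 : ∀ l, |∫ p, c.U3 Fn M' l r x q p ∂(nu μ)| < t) :
    c.κ / (c.N * c.β) * C1 + (1 - 1 / c.N) * (1 - c.β) ^ (c.N - 1) - t ≤
      Av (c.mixm μ) r (c.newg Fn M' q) x := by
  have hN : (0 : ℝ) < c.N := by have := c.hN; exact_mod_cast this
  have hβ0 := c.hβ0
  have hr0 : 0 < r := lt_of_lt_of_le hG.hr0 (hG.hr r hr).1
  rw [c.Av_mix μ r _ (c.bm_newg Fn M' hL q) x]
  have bn : ∀ l, BM (fun p => c.newg Fn M' q (c.dp l r x p)) := fun l =>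
    (c.bm_newg Fn M' hL q).comp (c.measurable_dp l r x)
  have bG : ∀ l, BM (fun p => c.G l (q.1 l) (c.dp l r x p)) := fun l => by
    have : BM (fun y => c.G l (q.1 l) y) := ⟨meas_right (f := c.G l) (c.measurable_G l) _, c.LG,
      fun y => c.G_abs l _ y⟩
    exact this.comp (c.measurable_dp l r x)
  have bh : ∀ l, BM (fun p => c.hot l (q.1 l) (c.dp l r x p)) := fun l => by
    have : BM (fun y => c.hot l (q.1 l) y) :=
      ⟨meas_right (f := c.hot l) (c.measurable_hot l) _, 1, fun y => by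
        rw [abs_of_nonneg (c.hot_nonneg l _ y)]; exact c.hot_le l _ y⟩
    exact this.comp (c.measurable_dp l r x)
  have bU1 : ∀ l, BM (fun p => c.U1 l r x q p) := fun l =>
    ⟨meas_right (f := c.U1 l r x) (c.measurable_U1 l r x) q, _, fun p => c.U1_abs l r x q p⟩
  have bU3 : ∀ l, BM (fun p => c.U3 Fn M' l r x q p) := fun l =>
    ⟨meas_right (f := c.U3 Fn M' l r x) (c.measurable_U3 Fn M' l r x) q, _,
      fun p => c.U3_abs Fn M' hL l r x q p⟩
  have hhot : ∀ l, ∀ᵐ p ∂(nu μ), c.hot l (q.1 l) (c.dp l r x p) = c.hot l (q.1 l) x := by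
    intro l
    filter_upwards [nu_ae μ hμ] with p hp
    exact c.hot_cst l (q.1 l) x _ θ (S l) (hS l) (hq l)
      (c.cst_dp l r x p R θ hr0 (hG.hr r hr).2 hG.c4 hG.c5 hp)
  set m := (1 - c.β) ^ (c.N - 1) with hm
  -- cluster i
  have hI : c.κ / c.β * C1 - t ≤ ∫ p, c.newg Fn M' q (c.dp i r x p) ∂(nu μ) := by
    have e1 : ∫ p, (c.U1 i r x q p + c.G i (q.1 i) (c.dp i r x p) * c.κ) ∂(nu μ) ≤
        ∫ p, c.newg Fn M' q (c.dp i r x p) ∂(nu μ) := by
      refine integral_mono (((bU1 i).add ((bG i).mul (BM.const _))).integrable _)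
        ((bn i).integrable _) fun p => ?_
      simp only [U1, newg]
      have := mul_nonneg (c.noh_nonneg q.1 (c.dp i r x p))
        (Fn.nonneg q.2 (M' * (c.dp i r x p).1, M' * (c.dp i r x p).2))
      linarith
    rw [integral_add ((bU1 i).integrable _) (((bG i).mul (BM.const _)).integrable _)] at e1
    have e2 : ∫ p, c.G i (q.1 i) (c.dp i r x p) * c.κ ∂(nu μ) =
        c.κ / c.β * Av μ r (c.F.g (q.1 i).1) (c.cd i x) := by
      unfold Av
      rw [← integral_const_mul]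
      refine integral_congr_ae ?_
      filter_upwards [hhot i] with p hp
      simp only [G]
      rw [hp, hi, c.cd_dp]
      ring
    rw [e2] at e1
    have e3 : -t < ∫ p, c.U1 i r x q p ∂(nu μ) := (abs_lt.1 (h1 i)).1
    have e4 : c.κ / c.β * C1 ≤ c.κ / c.β * Av μ r (c.F.g (q.1 i).1) (c.cd i x) :=
      mul_le_mul_of_nonneg_left hC (div_nonneg c.κ_nonneg hβ0.le)
    linarith
  have hO : ∀ l, l ≠ i → m - t ≤ ∫ p, c.newg Fn M' q (c.dp l r x p) ∂(nu μ) := by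
    intro l hl
    have e1 : ∫ p, (c.U3 Fn M' l r x q p + (1 - c.hot l (q.1 l) (c.dp l r x p)) * m) ∂(nu μ) ≤
        ∫ p, c.newg Fn M' q (c.dp l r x p) ∂(nu μ) := by
      refine integral_mono (((bU3 l).add (((BM.const 1).sub (bh l)).mul (BM.const _))).integrable _)
        ((bn l).integrable _) fun p => ?_
      simp only [U3, newg]
      have := mul_nonneg c.κ_nonneg (c.car_nonneg q.1 (c.dp l r x p))
      linarith
    rw [integral_add ((bU3 l).integrable _)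
      ((((BM.const 1).sub (bh l)).mul (BM.const _)).integrable _)] at e1
    have e2 : ∫ p, (1 - c.hot l (q.1 l) (c.dp l r x p)) * m ∂(nu μ) = m := by
      have : ∫ p, (1 - c.hot l (q.1 l) (c.dp l r x p)) * m ∂(nu μ) = ∫ _p, m ∂(nu μ) := by
        refine integral_congr_ae ?_
        filter_upwards [hhot l] with p hp
        rw [hp, ho l hl]
        ring
      rw [this]
      simp
    rw [e2] at e1
    have e3 : -t < ∫ p, c.U3 Fn M' l r x q p ∂(nu μ) := (abs_lt.1 (h3 l)).1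
    linarith
  have hsum : (c.κ / c.β * C1 - t) + (c.N - 1) * (m - t) ≤
      ∑ l, ∫ p, c.newg Fn M' q (c.dp l r x p) ∂(nu μ) := by
    rw [← Finset.add_sum_erase Finset.univ _ (Finset.mem_univ i)]
    refine add_le_add hI ?_
    have e1 : ∑ l ∈ Finset.univ.erase i, (m - t) ≤
        ∑ l ∈ Finset.univ.erase i, ∫ p, c.newg Fn M' q (c.dp l r x p) ∂(nu μ) :=
      Finset.sum_le_sum fun l hl => hO l (Finset.ne_of_mem_erase hl)
    rw [Finset.sum_const, Finset.card_erase_of_mem (Finset.mem_univ i), Finset.card_univ,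
      Fintype.card_fin, nsmul_eq_mul, Nat.cast_sub (by have := c.hN; omega)] at e1
    simpa using e1
  calc c.κ / (c.N * c.β) * C1 + (1 - 1 / c.N) * m - t
      = (1 / (c.N : ℝ)) * ((c.κ / c.β * C1 - t) + (c.N - 1) * (m - t)) := by
        field_simp
        ring
    _ ≤ _ := by gcongr

end Cl

end Pool.Agent.H719R2.Sec
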