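import Pool.Agent.H719R2.Sec.New

set_option autoImplicit false

open MeasureTheory Set Filter Topology
open scoped ENNReal

namespace Pool.Agent.H719R2.Sec

namespace Cl

variable (c : Cl)

/-- the mixed slope measure -/
noncomputable def mixm (μ : Measure ℝ) : Measure ℝ :=
  (c.N : ℝ≥0∞)⁻¹ • ∑ i : Fin c.N, μ.map (fun a => c.a i + a / c.H)

theorem measurable_aff (i : Fin c.N) : Measurable (fun a => c.a i + a / c.H) := by fun_prop

instance (μ : Measure ℝ) [IsProbabilityMeasure μ] : IsProbabilityMeasure (c.mixm μ) := by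
  constructor
  unfold mixm
  have h : ∀ i : Fin c.N, (μ.map (fun a => c.a i + a / c.H)) univ = 1 := fun i => by
    rw [Measure.map_apply (c.measurable_aff i) MeasurableSet.univ]
    simp
  simp only [Measure.smul_apply, Measure.coe_finsetSum, Finset.sum_apply, h, Finset.sum_const,
    Finset.card_univ, Fintype.card_fin, nsmul_eq_mul, mul_one, smul_eq_mul]
  refine ENNReal.inv_mul_cancel ?_ (ENNReal.natCast_ne_top _)
  have := c.hN
  exact_mod_cast this.ne'

/-- displacement of cluster `i` -/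
noncomputable def dp (i : Fin c.N) (r : ℝ) (x p : ℝ × ℝ) : ℝ × ℝ :=
  (x.1 - r * p.1, x.2 - r * p.1 * (c.a i + p.2 / c.H))

theorem measurable_dp (i : Fin c.N) (r : ℝ) (x : ℝ × ℝ) : Measurable (c.dp i r x) := by
  unfold dp; fun_prop

theorem Av_mix (μ : Measure ℝ) [IsProbabilityMeasure μ] (r : ℝ) (h : ℝ × ℝ → ℝ) (hh : BM h)
    (x : ℝ × ℝ) :
    Av (c.mixm μ) r h x = (1 / (c.N : ℝ)) * ∑ i, ∫ p, h (c.dp i r x p) ∂(nu μ) := by
  unfold Av nu
  have hb1 : BM (fun p : ℝ × ℝ => h (x.1 - r * p.1, x.2 - r * p.1 * p.2)) :=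
    hh.comp (by fun_prop)
  have hb2 : ∀ i, BM (fun p : ℝ × ℝ => h (c.dp i r x p)) := fun i => hh.comp (c.measurable_dp i r x)
  rw [integral_prod _ (hb1.integrable _)]
  have inner : ∀ s : ℝ, ∫ a, h (x.1 - r * s, x.2 - r * s * a) ∂(c.mixm μ) =
      (1 / (c.N : ℝ)) * ∑ i, ∫ a, h (c.dp i r x (s, a)) ∂μ := by
    intro s
    have hb3 : BM (fun a : ℝ => h (x.1 - r * s, x.2 - r * s * a)) := hh.comp (by fun_prop)
    unfold mixm
    rw [integral_smul_measure]
    rw [integral_finsetSum_measure (fun i _ => by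
      have : IsFiniteMeasure (μ.map (fun a => c.a i + a / c.H)) :=
        Measure.isFiniteMeasure_map μ _
      exact hb3.integrable _)]
    simp only [ENNReal.toReal_inv, ENNReal.toReal_natCast, smul_eq_mul, one_div]
    congr 1
    refine Finset.sum_congr rfl fun i _ => ?_
    rw [integral_map (c.measurable_aff i).aemeasurable hb3.1.aestronglyMeasurable]
    rfl
  simp_rw [inner]
  rw [integral_const_mul]
  congr 1
  rw [integral_finsetSum _ (fun i _ => ?_)]
  · refine Finset.sum_congr rfl fun i _ => ?_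
    rw [integral_prod _ ((hb2 i).integrable _)]
  · exact ((hb2 i).integrable (lam.prod μ)).integral_prod_left

theorem cd_dp (i : Fin c.N) (r : ℝ) (x p : ℝ × ℝ) :
    c.cd i (c.dp i r x p) = ((c.cd i x).1 - r * p.1, (c.cd i x).2 - r * p.1 * p.2) := by
  have hH : c.H ≠ 0 := by have := c.hH; positivity
  unfold cd dp
  simp only [Prod.mk.injEq, true_and]
  field_simp
  ring

theorem cz_dp (l i : Fin c.N) (r : ℝ) (x p : ℝ × ℝ) :
    c.cz l (c.dp i r x p) = ((c.cz l x).1 - r * p.1 / c.Λ,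
      (c.cz l x).2 - c.M * (r * (p.1 * (c.a i - c.a l) + p.1 * p.2 / c.H))) := by
  unfold cz dp
  simp only [Prod.mk.injEq]
  constructor <;> ring

theorem cst_dp (i : Fin c.N) (r : ℝ) (x p : ℝ × ℝ) (R θ : ℝ) (hr : 0 < r) (hrR : r ≤ R)
    (h1 : R / c.Λ ≤ θ) (h2 : c.M * R / c.H ≤ θ) (hp : p ∈ Bx) :
    dist (c.cz i x) (c.cz i (c.dp i r x p)) ≤ θ := by
  have hΛ := c.hΛ
  have hM := c.hM
  have hH := c.hH
  have hp1 := hp.1
  have hp2 := hp.2
  rw [mem_Ioc] at hp1
  rw [mem_Icc] at hp2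
  rw [cz_dp, Prod.dist_eq, max_le_iff, Real.dist_eq, Real.dist_eq]
  have e1 : (c.cz i x).1 - ((c.cz i x).1 - r * p.1 / c.Λ) = r * p.1 / c.Λ := by ring
  have e2 : (c.cz i x).2 - ((c.cz i x).2 - c.M * (r * (p.1 * (c.a i - c.a i) + p.1 * p.2 / c.H))) =
      c.M * (r * (p.1 * p.2)) / c.H := by ring
  simp only
  rw [e1, e2, abs_of_nonneg (by have := hp1.1.le; positivity),
    abs_of_nonneg (by have := hp1.1.le; have := hp2.1; positivity)]
  constructor
  · refine le_trans ?_ h1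
    gcongr
    calc r * p.1 ≤ r * 1 := by gcongr; exact hp1.2
      _ ≤ R := by linarith
  · refine le_trans ?_ h2
    gcongr
    have : p.1 * p.2 ≤ 1 := mul_le_one₀ hp1.2 hp2.1 hp2.2
    calc r * (p.1 * p.2) ≤ r * 1 := by gcongr
      _ ≤ R := by linarith

theorem far_dp (l i : Fin c.N) (hli : l ≠ i) (r : ℝ) (x p q : ℝ × ℝ) (r0 t1 : ℝ) (hr0 : 0 < r0)
    (hr : r0 ≤ r) (ht1 : 0 < t1) (hp : p ∈ Bx) (hq : q ∈ Bx) (hpq : t1 ≤ |p.1 - q.1|)
    (c1 : 1 / c.H ≤ t1 / (2 * c.N)) (c2 : 1 ≤ c.M * (r0 * (t1 / (2 * c.N))))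
    (c3 : c.F.B ≤ c.H * (r0 * (t1 / (2 * c.N)))) :
    c.farz l (c.dp i r x p) (c.dp i r x q) ∧ c.fard l (c.dp i r x p) (c.dp i r x q) := by
  have hΛ := c.hΛ
  have hM := c.hM
  have hH := c.hH
  have hN : (0 : ℝ) < c.N := by have := c.hN; exact_mod_cast this
  have hp1 := hp.1
  have hp2 := hp.2
  have hq1 := hq.1
  have hq2 := hq.2
  rw [mem_Ioc] at hp1 hq1
  rw [mem_Icc] at hp2 hq2
  set w := (p.1 - q.1) * (c.a i - c.a l) + (p.1 * p.2 - q.1 * q.2) / c.H with hw
  have hsep := c.hsep i l (Ne.symm hli)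
  have hw1 : t1 / (2 * c.N) ≤ |w| := by
    have h1 : t1 * (1 / c.N) ≤ |(p.1 - q.1) * (c.a i - c.a l)| := by
      rw [abs_mul]
      exact mul_le_mul hpq hsep (by positivity) (abs_nonneg _)
    have h2 : |(p.1 * p.2 - q.1 * q.2) / c.H| ≤ 1 / c.H := by
      rw [abs_div, abs_of_pos (by linarith : (0 : ℝ) < c.H)]
      gcongr
      have b1 : p.1 * p.2 ≤ 1 := mul_le_one₀ hp1.2 hp2.1 hp2.2
      have b2 : q.1 * q.2 ≤ 1 := mul_le_one₀ hq1.2 hq2.1 hq2.2
      have b3 : 0 ≤ p.1 * p.2 := mul_nonneg hp1.1.le hp2.1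
      have b4 : 0 ≤ q.1 * q.2 := mul_nonneg hq1.1.le hq2.1
      rw [abs_le]
      constructor <;> linarith
    have h3 : |(p.1 - q.1) * (c.a i - c.a l)| ≤ |w| + |(p.1 * p.2 - q.1 * q.2) / c.H| := by
      have : (p.1 - q.1) * (c.a i - c.a l) = w - (p.1 * p.2 - q.1 * q.2) / c.H := by rw [hw]; ring
      rw [this]
      exact abs_sub _ _
    have h4 : t1 * (1 / c.N) = t1 / (2 * c.N) + t1 / (2 * c.N) := by field_simp; ring
    linarith
  have hw2 : r0 * (t1 / (2 * c.N)) ≤ r * |w| :=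
    mul_le_mul hr hw1 (by positivity) (by linarith)
  constructor
  · unfold farz
    rw [cz_dp, cz_dp, Prod.dist_eq, Real.dist_eq, Real.dist_eq]
    refine le_trans ?_ (le_max_right _ _)
    simp only
    have e : (c.cz l x).2 - c.M * (r * (p.1 * (c.a i - c.a l) + p.1 * p.2 / c.H)) -
        ((c.cz l x).2 - c.M * (r * (q.1 * (c.a i - c.a l) + q.1 * q.2 / c.H))) =
        -(c.M * (r * w)) := by rw [hw]; ring
    rw [e, abs_neg, abs_mul, abs_mul, abs_of_pos (by linarith : (0 : ℝ) < c.M),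
      abs_of_pos (by linarith : (0 : ℝ) < r)]
    calc 1 ≤ c.M * (r0 * (t1 / (2 * c.N))) := c2
      _ ≤ c.M * (r * |w|) := by gcongr
  · unfold fard
    rw [Prod.dist_eq, Real.dist_eq, Real.dist_eq]
    refine le_trans ?_ (le_max_right _ _)
    unfold cd dp
    simp only
    have e : c.H * (x.2 - r * p.1 * (c.a i + p.2 / c.H) - c.a l * (x.1 - r * p.1)) -
        c.H * (x.2 - r * q.1 * (c.a i + q.2 / c.H) - c.a l * (x.1 - r * q.1)) =
        -(c.H * (r * w)) := by rw [hw]; ring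
    rw [e, abs_neg, abs_mul, abs_mul, abs_of_pos (by linarith : (0 : ℝ) < c.H),
      abs_of_pos (by linarith : (0 : ℝ) < r)]
    calc c.F.B ≤ c.H * (r0 * (t1 / (2 * c.N))) := c3
      _ ≤ c.H * (r * |w|) := by gcongr

section events

variable {Ωn : Type} [MeasurableSpace Ωn] (Pn : Measure Ωn) [IsProbabilityMeasure Pn]

theorem meas_cyl (S : Fin c.N → Set c.Ωb) (T : Set Ωn) :
    (c.Pw.prod Pn).real {q | (∀ l, q.1 l ∈ S l) ∧ q.2 ∈ T} =
      (∏ l, c.Pb.real (S l)) * Pn.real T := by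
  have : {q : c.Ωw × Ωn | (∀ l, q.1 l ∈ S l) ∧ q.2 ∈ T} = (Set.pi univ S) ×ˢ T := by
    ext q; simp
  rw [this, measureReal_prod_prod]
  congr 1
  rw [measureReal_def, Measure.pi_pi, ENNReal.toReal_prod]
  rfl

theorem meas_one (i : Fin c.N) (A : Set c.Ωb) :
    (c.Pw.prod Pn).real {q | q.1 i ∈ A} = c.Pb.real A := by
  have h := c.meas_cyl Pn (fun l => if l = i then A else univ) univ
  have h1 : {q : c.Ωw × Ωn | (∀ l, q.1 l ∈ (if l = i then A else univ)) ∧ q.2 ∈ (univ : Set Ωn)} =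
      {q | q.1 i ∈ A} := by
    ext q
    simp only [mem_univ, and_true, mem_ofPred_eq]
    constructor
    · intro h; simpa using h i
    · intro h l
      by_cases hl : l = i
      · subst hl; simpa using h
      · simp [hl]
  rw [h1] at h
  rw [h, Finset.prod_eq_single i]
  · simp
  · intro b _ hb
    simp [hb]
  · intro h; exact absurd (Finset.mem_univ _) h

theorem meas_two (i j : Fin c.N) (hij : i ≠ j) (A B : Set c.Ωb) :
    (c.Pw.prod Pn).real {q | q.1 i ∈ A ∧ q.1 j ∈ B} = c.Pb.real A * c.Pb.real B := by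
  have h := c.meas_cyl Pn (fun l => if l = i then A else if l = j then B else univ) univ
  have h1 : {q : c.Ωw × Ωn | (∀ l, q.1 l ∈ (if l = i then A else if l = j then B else univ)) ∧
      q.2 ∈ (univ : Set Ωn)} = {q | q.1 i ∈ A ∧ q.1 j ∈ B} := by
    ext q
    simp only [mem_univ, and_true, mem_ofPred_eq]
    constructor
    · intro h
      refine ⟨by simpa using h i, ?_⟩
      have := h j
      simpa [Ne.symm hij] using this
    · rintro ⟨ha, hb⟩ l
      by_cases hl : l = i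
      · subst hl; simpa using ha
      · by_cases hl' : l = j
        · subst hl'; simpa [hl] using hb
        · simp [hl, hl']
  rw [h1] at h
  rw [h, Finset.prod_eq_mul i j hij]
  · simp [Ne.symm hij]
  · rintro b _ ⟨hb1, hb2⟩
    simp [hb1, hb2]
  · intro h; exact absurd (Finset.mem_univ _) h
  · intro h; exact absurd (Finset.mem_univ _) h

end events

theorem msb_hot (l : Fin c.N) (x : ℝ × ℝ) (v : ℝ) : MeasurableSet {b : c.Ωb | c.hot l b x = v} :=
  (c.bm_hot l x).1 (measurableSet_singleton v)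

theorem P_hot1 (l : Fin c.N) (x : ℝ × ℝ) : c.Pb.real {b : c.Ωb | c.hot l b x = 1} = c.β := by
  have h := c.E_hot l x
  have e : (fun b => c.hot l b x) = indicator {b : c.Ωb | c.hot l b x = 1} (fun _ => (1 : ℝ)) := by
    ext b
    rcases c.hot01 l b x with hb | hb
    · simp [indicator, hb]
    · simp [indicator, hb]
  rw [e, integral_indicator_const _ (c.msb_hot l x 1), smul_eq_mul, mul_one] at h
  exact h

theorem P_hot0 (l : Fin c.N) (x : ℝ × ℝ) : c.Pb.real {b : c.Ωb | c.hot l b x = 0} = 1 - c.β := by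
  have h := c.P_hot1 l x
  have e : {b : c.Ωb | c.hot l b x = 0} = {b : c.Ωb | c.hot l b x = 1}ᶜ := by
    ext b
    rcases c.hot01 l b x with hb | hb
    · simp [hb]
    · simp [hb]
  rw [e, probReal_compl_eq_one_sub (c.msb_hot l x 1), h]

theorem P_hotfail (l : Fin c.N) (x : ℝ × ℝ) (S : Set c.F.Ω) :
    c.Pb.real {b : c.Ωb | c.hot l b x = 1 ∧ b.1 ∈ S} = c.β * c.F.P.real S := by
  have h1 : {b : c.Ωb | c.hot l b x = 1 ∧ b.1 ∈ S} = S ×ˢ {s | c.Z.z s (c.cz l x) = 1} := by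
    ext b
    simp only [mem_ofPred_eq, mem_prod, hot]
    tauto
  have h2 : {b : c.Ωb | c.hot l b x = 1} = univ ×ˢ {s | c.Z.z s (c.cz l x) = 1} := by
    ext b
    simp [hot]
  have h3 := c.P_hot1 l x
  rw [h2, measureReal_prod_prod, probReal_univ, one_mul] at h3
  rw [h1, measureReal_prod_prod, h3, mul_comm]

theorem P_snd (S : Set c.Z.Ω) : c.Pb.real {b : c.Ωb | b.2 ∈ S} = c.Z.P.real S := by
  have h1 : {b : c.Ωb | b.2 ∈ S} = univ ×ˢ S := by ext b; simp
  rw [h1, measureReal_prod_prod, probReal_univ, one_mul]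

end Cl

end Pool.Agent.H719R2.Sec
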