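import Pool.Agent.H719R2.Sec.Point

set_option autoImplicit false

open MeasureTheory Set Filter Topology
open scoped ENNReal

namespace Pool.Agent.H719R2.Sec

namespace Cl

variable (c : Cl)

/-- the error of one round -/
noncomputable def err (δ1 t1 θ t : ℝ) (n : ℕ) : ℝ :=
  (c.N * c.β) ^ 2 + c.N * c.β * δ1 + c.N * (12 * θ) +
    2 * (c.N * n * ((2 * c.LG ^ c.N) ^ 2 * (4 * t1) / t ^ 2))

theorem exists_scale (Fn : Fld) (Rn : Finset ℝ) (hRn : ∀ r ∈ Rn, 0 < r) (r0 t1 θ : ℝ)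
    (hr0 : 0 < r0) (ht1 : 0 < t1) (hθ : 0 < θ) :
    ∃ M' : ℝ, 1 ≤ M' ∧ Fn.B ≤ M' * (r0 * t1) ∧ ∀ r ∈ Rn, c.M * (r / M') ≤ θ := by
  have hM := c.hM
  have hsum : ∀ r ∈ Rn, r ≤ ∑ s ∈ Rn, s := fun r hr =>
    Finset.single_le_sum (f := fun s : ℝ => s) (fun s hs => (hRn s hs).le) hr
  refine ⟨max 1 (max (Fn.B / (r0 * t1)) (c.M * (∑ s ∈ Rn, s) / θ)), le_max_left _ _, ?_, ?_⟩
  · have h1 : Fn.B / (r0 * t1) ≤ max 1 (max (Fn.B / (r0 * t1)) (c.M * (∑ s ∈ Rn, s) / θ)) :=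
      (le_max_left _ _).trans (le_max_right _ _)
    rwa [div_le_iff₀ (by positivity)] at h1
  · intro r hr
    set M' := max 1 (max (Fn.B / (r0 * t1)) (c.M * (∑ s ∈ Rn, s) / θ)) with hM'
    have h1 : c.M * (∑ s ∈ Rn, s) / θ ≤ M' := (le_max_right _ _).trans (le_max_right _ _)
    have h2 : (1 : ℝ) ≤ M' := le_max_left _ _
    rw [div_le_iff₀ hθ] at h1
    rw [← mul_div_assoc, div_le_iff₀ (by linarith)]
    calc c.M * r ≤ c.M * ∑ s ∈ Rn, s := by gcongr; exact hsum r hr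
      _ ≤ θ * M' := by linarith

theorem round (μ : Measure ℝ) [IsProbabilityMeasure μ] (hμ : ∀ᵐ a ∂μ, a ∈ Icc (0 : ℝ) 1)
    (C1 δ1 : ℝ) (R1 : Finset ℝ) (hS1 : Succ c.F μ C1 δ1 R1)
    (r0 R t1 θ : ℝ) (hG : c.Geo R1 r0 R t1 θ)
    (hμ' : ∀ᵐ a ∂(c.mixm μ), a ∈ Icc (0 : ℝ) 1) (t : ℝ) (ht : 0 < t)
    (Fn : Fld) (hL : Fn.L ≤ c.LG ^ c.N) (A0 : ℝ)
    (hA0 : A0 ≤ c.κ / (c.N * c.β) * C1 + (1 - 1 / c.N) * (1 - c.β) ^ (c.N - 1) - t)
    (p : ℝ) (Rn : Finset ℝ) (hn : Succ Fn (c.mixm μ) A0 p Rn) :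
    ∃ F' : Fld, F'.L ≤ c.LG ^ c.N ∧ ∃ R' : Finset ℝ,
      Succ F' (c.mixm μ) A0 ((1 - c.β) ^ c.N * p + c.err δ1 t1 θ t R1.card) R' := by
  classical
  obtain ⟨M', hM1, hM2, hM3⟩ := c.exists_scale Fn Rn hn.1 r0 t1 θ hG.hr0 hG.ht1 hG.hθ
  have hM0 : 0 < M' := by linarith
  refine ⟨c.new Fn M' hM1 hL, le_refl _, R1 ∪ Rn.image (fun r => r / M'), ?_, ?_⟩
  · intro r hr
    rw [Finset.mem_union, Finset.mem_image] at hr
    rcases hr with hr | ⟨s, hs, rfl⟩
    · exact hS1.1 r hr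
    · have := hn.1 s hs
      positivity
  intro x
  -- constancy sets
  have hcst : ∀ l : Fin c.N, ∃ S : Set c.Z.Ω, MeasurableSet S ∧ c.Z.P.real S ≤ 12 * θ ∧
      c.CstSet l x θ S := fun l => c.Z.cst (c.cz l x) θ hG.hθ hG.hθ1
  choose S _hSm hSP hSc using hcst
  set P' : Measure (c.Ωw × Fn.Ω) := c.Pw.prod Fn.P with hP'
  set x' : ℝ × ℝ := (M' * x.1, M' * x.2) with hx'
  set K : ℝ := (2 * c.LG ^ c.N) ^ 2 * (4 * t1) / t ^ 2 with hK
  set E2 : Set (c.Ωw × Fn.Ω) := ⋃ ij : Fin c.N × Fin c.N,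
    (if ij.1 = ij.2 then ∅ else
      {q | q.1 ij.1 ∈ {b | c.hot ij.1 b x = 1} ∧ q.1 ij.2 ∈ {b | c.hot ij.2 b x = 1}}) with hE2
  set E1 : Set (c.Ωw × Fn.Ω) := ⋃ i : Fin c.N,
    {q | q.1 i ∈ {b : c.Ωb | c.hot i b x = 1 ∧ b.1 ∈ fail c.F μ C1 R1 (c.cd i x)}} with hE1
  set E0 : Set (c.Ωw × Fn.Ω) :=
    {q | (∀ l, q.1 l ∈ {b : c.Ωb | c.hot l b x = 0}) ∧ q.2 ∈ fail Fn (c.mixm μ) A0 Rn x'} with hE0
  set D1 : Set (c.Ωw × Fn.Ω) := ⋃ l : Fin c.N, {q | q.1 l ∈ {b : c.Ωb | b.2 ∈ S l}} with hD1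
  set D2 : Set (c.Ωw × Fn.Ω) := ⋃ l : Fin c.N, ⋃ r ∈ R1,
    {q | t ≤ |∫ p, c.U1 l r x q p ∂(nu μ)|} with hD2
  set D3 : Set (c.Ωw × Fn.Ω) := ⋃ l : Fin c.N, ⋃ r ∈ R1,
    {q | t ≤ |∫ p, c.U3 Fn M' l r x q p ∂(nu μ)|} with hD3
  have hsub : (fail (c.new Fn M' hM1 hL) (c.mixm μ) A0 (R1 ∪ Rn.image (fun r => r / M')) x :
      Set (c.Ωw × Fn.Ω)) ⊆ E2 ∪ (E1 ∪ (E0 ∪ (D1 ∪ (D2 ∪ D3)))) := by
    suffices key : ∀ q : c.Ωw × Fn.Ω,
        (∀ r ∈ R1 ∪ Rn.image (fun r => r / M'), Av (c.mixm μ) r (c.newg Fn M' q) x < A0) →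
        q ∈ E2 ∪ (E1 ∪ (E0 ∪ (D1 ∪ (D2 ∪ D3)))) from fun q hq => key q hq
    intro q hq'
    by_contra hno
    simp only [mem_union, not_or] at hno
    obtain ⟨n2, n1, n0, d1, d2, d3⟩ := hno
    have d1' : ∀ l, (q.1 l).2 ∉ S l := by
      intro l hl
      exact d1 (mem_iUnion.2 ⟨l, hl⟩)
    have n2' : ∀ i j, i ≠ j → c.hot i (q.1 i) x = 1 → c.hot j (q.1 j) x = 1 → False := by
      intro i j hij h1 h2
      apply n2
      rw [hE2]
      refine mem_iUnion.2 ⟨(i, j), ?_⟩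
      simp only [hij, if_false]
      exact ⟨h1, h2⟩
    by_cases hall : ∀ l, c.hot l (q.1 l) x = 0
    · -- no hot cluster
      have hnf : q.2 ∉ fail Fn (c.mixm μ) A0 Rn x' := fun h => n0 ⟨hall, h⟩
      unfold fail at hnf
      simp only [mem_ofPred_eq, not_forall, not_lt] at hnf
      obtain ⟨r, hr, hAr⟩ := hnf
      have h1 := c.caseA (c.mixm μ) hμ' Fn M' hM0 hL q x θ S hSc d1' hall r (hn.1 r hr) (hM3 r hr)
      have h2 := hq' (r / M') (Finset.mem_union_right _ (Finset.mem_image_of_mem _ hr))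
      exact absurd (hAr.trans h1) (not_le.2 h2)
    · push Not at hall
      obtain ⟨i, hi⟩ := hall
      have hi1 : c.hot i (q.1 i) x = 1 := (c.hot01 i (q.1 i) x).resolve_left hi
      have ho : ∀ l, l ≠ i → c.hot l (q.1 l) x = 0 := by
        intro l hl
        rcases c.hot01 l (q.1 l) x with h | h
        · exact h
        · exact (n2' l i hl h hi1).elim
      have hnf : (q.1 i).1 ∉ fail c.F μ C1 R1 (c.cd i x) := fun h =>
        n1 (mem_iUnion.2 ⟨i, hi1, h⟩)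
      unfold fail at hnf
      simp only [mem_ofPred_eq, not_forall, not_lt] at hnf
      obtain ⟨r, hr, hAr⟩ := hnf
      have h1 : ∀ l, |∫ p, c.U1 l r x q p ∂(nu μ)| < t := by
        intro l
        by_contra h
        rw [not_lt] at h
        apply d2
        rw [hD2]
        exact mem_iUnion.2 ⟨l, mem_iUnion₂.2 ⟨r, hr, h⟩⟩
      have h3 : ∀ l, |∫ p, c.U3 Fn M' l r x q p ∂(nu μ)| < t := by
        intro l
        by_contra h
        rw [not_lt] at h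
        apply d3
        rw [hD3]
        exact mem_iUnion.2 ⟨l, mem_iUnion₂.2 ⟨r, hr, h⟩⟩
      have h4 := c.caseB μ hμ R1 r0 R t1 θ hG Fn M' hL q x S hSc d1' i hi1 ho r hr C1 hAr t h1 h3
      have h5 := hq' r (Finset.mem_union_left _ hr)
      exact absurd (hA0.trans h4) (not_le.2 h5)
  -- probabilities
  have hβ0 := c.hβ0
  have hβ1 := c.hβ1
  have hN0 : (0 : ℝ) ≤ c.N := Nat.cast_nonneg _
  have p2 : P'.real E2 ≤ (c.N * c.β) ^ 2 := by
    refine (measureReal_iUnion_fintype_le _).trans ?_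
    have : ∀ ij : Fin c.N × Fin c.N, P'.real (if ij.1 = ij.2 then ∅ else
      {q | q.1 ij.1 ∈ {b | c.hot ij.1 b x = 1} ∧ q.1 ij.2 ∈ {b | c.hot ij.2 b x = 1}}) ≤
        c.β ^ 2 := by
      rintro ⟨i, j⟩
      by_cases hij : i = j
      · simp only [hij, if_true, measureReal_empty]
        positivity
      · simp only [hij, if_false]
        rw [hP', c.meas_two Fn.P i j hij, c.P_hot1, c.P_hot1, sq]
    refine (Finset.sum_le_sum fun ij _ => this ij).trans ?_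
    simp only [Finset.sum_const, Finset.card_univ, Fintype.card_prod, Fintype.card_fin,
      nsmul_eq_mul, Nat.cast_mul]
    apply le_of_eq
    ring
  have p1 : P'.real E1 ≤ c.N * c.β * δ1 := by
    refine (measureReal_iUnion_fintype_le _).trans ?_
    have : ∀ i : Fin c.N, P'.real {q | q.1 i ∈
        {b : c.Ωb | c.hot i b x = 1 ∧ b.1 ∈ fail c.F μ C1 R1 (c.cd i x)}} ≤ c.β * δ1 := by
      intro i
      rw [hP', c.meas_one Fn.P, c.P_hotfail]
      exact mul_le_mul_of_nonneg_left (hS1.2 _) hβ0.le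
    refine (Finset.sum_le_sum fun i _ => this i).trans ?_
    simp only [Finset.sum_const, Finset.card_univ, Fintype.card_fin, nsmul_eq_mul]
    apply le_of_eq
    ring
  have p0 : P'.real E0 ≤ (1 - c.β) ^ c.N * p := by
    rw [hE0, hP', c.meas_cyl Fn.P]
    simp only [c.P_hot0, Finset.prod_const, Finset.card_univ, Fintype.card_fin]
    exact mul_le_mul_of_nonneg_left (hn.2 _) (pow_nonneg (by linarith) _)
  have q1 : P'.real D1 ≤ c.N * (12 * θ) := by
    refine (measureReal_iUnion_fintype_le _).trans ?_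
    have : ∀ l : Fin c.N, P'.real {q | q.1 l ∈ {b : c.Ωb | b.2 ∈ S l}} ≤ 12 * θ := by
      intro l
      rw [hP', c.meas_one Fn.P, c.P_snd]
      exact hSP l
    refine (Finset.sum_le_sum fun i _ => this i).trans ?_
    simp only [Finset.sum_const, Finset.card_univ, Fintype.card_fin, nsmul_eq_mul]
    exact le_refl _
  have q2 : P'.real D2 ≤ c.N * R1.card * K := by
    refine (measureReal_iUnion_fintype_le _).trans ?_
    have : ∀ l : Fin c.N, P'.real (⋃ r ∈ R1, {q | t ≤ |∫ p, c.U1 l r x q p ∂(nu μ)|}) ≤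
        R1.card * K := by
      intro l
      refine (measureReal_biUnion_finset_le _ _).trans ?_
      refine (Finset.sum_le_sum fun r hr =>
        c.cheb1 Fn.P μ hμ R1 r0 R t1 θ hG l r hr x t ht).trans ?_
      simp only [Finset.sum_const, nsmul_eq_mul]
      exact le_refl _
    refine (Finset.sum_le_sum fun i _ => this i).trans ?_
    simp only [Finset.sum_const, Finset.card_univ, Fintype.card_fin, nsmul_eq_mul]
    apply le_of_eq
    ring
  have q3 : P'.real D3 ≤ c.N * R1.card * K := by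
    refine (measureReal_iUnion_fintype_le _).trans ?_
    have : ∀ l : Fin c.N, P'.real (⋃ r ∈ R1, {q | t ≤ |∫ p, c.U3 Fn M' l r x q p ∂(nu μ)|}) ≤
        R1.card * K := by
      intro l
      refine (measureReal_biUnion_finset_le _ _).trans ?_
      refine (Finset.sum_le_sum fun r hr =>
        c.cheb3 Fn M' hL μ hμ R1 r0 R t1 θ hG hM0 hM2 l r hr x t ht).trans ?_
      simp only [Finset.sum_const, nsmul_eq_mul]
      exact le_refl _
    refine (Finset.sum_le_sum fun i _ => this i).trans ?_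
    simp only [Finset.sum_const, Finset.card_univ, Fintype.card_fin, nsmul_eq_mul]
    apply le_of_eq
    ring
  have hfin : P'.real (fail (c.new Fn M' hM1 hL) (c.mixm μ) A0
      (R1 ∪ Rn.image (fun r => r / M')) x : Set (c.Ωw × Fn.Ω)) ≤
      P'.real E2 + (P'.real E1 + (P'.real E0 + (P'.real D1 + (P'.real D2 + P'.real D3)))) := by
    refine (measureReal_mono hsub).trans ?_
    refine (measureReal_union_le _ _).trans (add_le_add le_rfl ?_)
    refine (measureReal_union_le _ _).trans (add_le_add le_rfl ?_)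
    refine (measureReal_union_le _ _).trans (add_le_add le_rfl ?_)
    refine (measureReal_union_le _ _).trans (add_le_add le_rfl ?_)
    exact measureReal_union_le _ _
  change P'.real (fail (c.new Fn M' hM1 hL) (c.mixm μ) A0
      (R1 ∪ Rn.image (fun r => r / M')) x : Set (c.Ωw × Fn.Ω)) ≤ _
  refine hfin.trans ?_
  unfold err
  linarith

end Cl

end Pool.Agent.H719R2.Sec
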