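import Pool.Agent.H719R2.Sec.Transfer

set_option autoImplicit false

open MeasureTheory Set Filter Topology
open scoped ENNReal

namespace Pool.Agent.H719R2.Sec

/-- the set of angles with tangent in `E` -/
def ang (E : Set ℝ) : Set ℝ := {θ : ℝ | θ ∈ Ioo (-(Real.pi / 2)) (Real.pi / 2) ∧ Real.tan θ ∈ E}

theorem measurable_tan : Measurable Real.tan := by
  have : Real.tan = fun x => Real.sin x / Real.cos x := by
    ext x; exact Real.tan_eq_sin_div_cos x
  rw [this]
  exact Real.measurable_sin.div Real.measurable_cos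

theorem measurableSet_ang (E : Set ℝ) (hE : MeasurableSet E) : MeasurableSet (ang E) :=
  measurableSet_Ioo.inter (measurable_tan hE)

theorem ang_sub (E : Set ℝ) : ang E ⊆ Ioc (-Real.pi) Real.pi := by
  rintro θ ⟨h, -⟩
  rw [mem_Ioo] at h
  have := Real.pi_pos
  rw [mem_Ioc]
  constructor <;> linarith

theorem ang_pos (E : Set ℝ) (h : 0 < volume E) : 0 < volume (ang E) := by
  rw [pos_iff_ne_zero]
  intro h0
  have hd : DifferentiableOn ℝ Real.tan (ang E) := by
    intro θ hθ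
    exact (Real.differentiableAt_tan.2 (Real.cos_pos_of_mem_Ioo hθ.1).ne').differentiableWithinAt
  have h1 := addHaar_image_eq_zero_of_differentiableOn_of_addHaar_eq_zero (μ := volume) hd h0
  have h2 : E ⊆ Real.tan '' (ang E) := by
    intro y hy
    refine ⟨Real.arctan y, ⟨?_, ?_⟩, Real.tan_arctan y⟩
    · exact Real.arctan_mem_Ioo y
    · rw [Real.tan_arctan]; exact hy
  have h3 := measure_mono_null h2 h1
  exact h.ne' h3

/-- the circular sector -/
def Sct (Eh : Set ℝ) (r : ℝ) : Set ℂ := {z : ℂ | ‖z‖ ≤ r ∧ Complex.arg z ∈ Eh}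

theorem Cone_sub_Sct (E : Set ℝ) (hE1 : E ⊆ Icc 0 1) (ρ : ℝ) :
    Complex.measurableEquivRealProd ⁻¹' (Cone E ρ) ⊆ Sct (ang E) (2 * ρ) := by
  intro z hz
  have hz' : z.re ∈ Ioc 0 ρ ∧ z.im / z.re ∈ E := hz
  obtain ⟨h1, h2⟩ := hz'
  rw [mem_Ioc] at h1
  have h3 := Cone_sub E hE1 ρ hz
  have h3' : (z.re ∈ Icc 0 ρ) ∧ (z.im ∈ Icc 0 ρ) := h3
  obtain ⟨h4, h5⟩ := h3'
  rw [mem_Icc] at h4 h5
  refine ⟨?_, ?_, ?_⟩
  · calc ‖z‖ ≤ |z.re| + |z.im| := Complex.norm_le_abs_re_add_abs_im z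
      _ ≤ 2 * ρ := by rw [abs_of_nonneg h4.1, abs_of_nonneg h5.1]; linarith
  · have h6 := Complex.abs_arg_lt_pi_div_two_iff.2 (Or.inl h1.1)
    rw [abs_lt] at h6
    exact ⟨h6.1, h6.2⟩
  · rw [Complex.tan_arg]; exact h2

theorem Sct_sub_Cone (E : Set ℝ) (r : ℝ) :
    Sct (ang E) r ⊆ Complex.measurableEquivRealProd ⁻¹' (Cone E r) ∪ {0} := by
  rintro z ⟨h1, h2, h3⟩
  rw [Complex.tan_arg] at h3
  rw [mem_Ioo] at h2
  have h4 : |Complex.arg z| < Real.pi / 2 := abs_lt.2 h2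
  rw [Complex.abs_arg_lt_pi_div_two_iff] at h4
  rcases h4 with h4 | h4
  · left
    have : z.re ∈ Ioc 0 r ∧ z.im / z.re ∈ E := by
      refine ⟨⟨h4, ?_⟩, h3⟩
      exact ((le_abs_self _).trans (Complex.abs_re_le_norm z)).trans h1
    exact this
  · right; simpa using h4

theorem vol_Sct_le (E : Set ℝ) (r : ℝ) :
    volume (Sct (ang E) r) ≤ volume (Cone E r) := by
  refine (measure_mono (Sct_sub_Cone E r)).trans ?_
  refine (measure_union_le _ _).trans ?_
  rw [measure_singleton, add_zero]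
  exact le_of_eq (Complex.volume_preserving_equiv_real_prod.measure_preimage_equiv _)

theorem sector_avg (E : Set ℝ) (hE : MeasurableSet E) (hE1 : E ⊆ Icc 0 1) (k : ℝ≥0∞)
    (μ : Measure ℝ) [IsProbabilityMeasure μ] (hμ : μ = k • volume.restrict E) (ρ : ℝ) (hρ : 0 < ρ)
    (h : ℝ × ℝ → ℝ) (hh : BM h) (h0 : ∀ x, 0 ≤ h x) (x : ℂ) :
    Av μ ρ h (x.re, x.im) / 4 ≤
      (volume.real (Sct (ang E) (2 * ρ)))⁻¹ *
        ∫ y in Sct (ang E) (2 * ρ), h ((x - y).re, (x - y).im) := by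
  have hV1 := vol_Cone E hE hE1 k μ hμ ρ hρ
  have hV2 := vol_Cone E hE hE1 k μ hμ (2 * ρ) (by positivity)
  have hfin2 : volume (Sct (ang E) (2 * ρ)) < ∞ :=
    (vol_Sct_le E (2 * ρ)).trans_lt (Cone_fin E hE1 (2 * ρ))
  have hle : volume.real (Sct (ang E) (2 * ρ)) ≤ volume.real (Cone E (2 * ρ)) :=
    ENNReal.toReal_mono (Cone_fin E hE1 (2 * ρ)).ne (vol_Sct_le E (2 * ρ))
  have hpos : 0 < volume.real (Sct (ang E) (2 * ρ)) := by
    have h1 : 0 < volume.real (Cone E ρ) := by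
      rcases (measureReal_nonneg (μ := volume) (s := Cone E ρ)).lt_or_eq with h | h
      · exact h
      · rw [← h, mul_zero] at hV1; exact absurd hV1 (by norm_num)
    have h2 : volume.real (Cone E ρ) ≤ volume.real (Sct (ang E) (2 * ρ)) := by
      refine ENNReal.toReal_mono hfin2.ne ?_
      rw [← Complex.volume_preserving_equiv_real_prod.measure_preimage_equiv (Cone E ρ)]
      exact measure_mono (Cone_sub_Sct E hE1 ρ)
    linarith
  have hinv : (2 * k.toReal / (2 * ρ) ^ 2) ≤ (volume.real (Sct (ang E) (2 * ρ)))⁻¹ := by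
    have h1 : (2 * k.toReal / (2 * ρ) ^ 2) = (volume.real (Cone E (2 * ρ)))⁻¹ :=
      eq_inv_of_mul_eq_one_left hV2
    rw [h1]
    exact inv_anti₀ hpos hle
  have hbm : BM (fun y : ℂ => h ((x - y).re, (x - y).im)) := by
    refine hh.comp ?_
    exact (Complex.measurable_re.comp (measurable_const.sub measurable_id)).prodMk
      (Complex.measurable_im.comp (measurable_const.sub measurable_id))
  have hint : ∫ p in Cone E ρ, h ((x.re, x.im) - p) ≤
      ∫ y in Sct (ang E) (2 * ρ), h ((x - y).re, (x - y).im) := by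
    have e1 : ∫ y in Complex.measurableEquivRealProd ⁻¹' (Cone E ρ),
        h ((x - y).re, (x - y).im) = ∫ p in Cone E ρ, h ((x.re, x.im) - p) :=
      Complex.volume_preserving_equiv_real_prod.setIntegral_preimage_emb
        Complex.measurableEquivRealProd.measurableEmbedding
        (fun p => h ((x.re, x.im) - p)) (Cone E ρ)
    rw [← e1]
    refine setIntegral_mono_set ?_ (Eventually.of_forall fun y => h0 _)
      (Eventually.of_forall (Cone_sub_Sct E hE1 ρ))
    have : IsFiniteMeasure (volume.restrict (Sct (ang E) (2 * ρ))) :=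
      ⟨by rw [Measure.restrict_apply_univ]; exact hfin2⟩
    exact hbm.integrable _
  rw [Av_eq_Cone E hE hE1 k μ hμ ρ hρ h hh]
  have hI0 : 0 ≤ ∫ p in Cone E ρ, h ((x.re, x.im) - p) :=
    integral_nonneg fun p => h0 _
  calc (2 * k.toReal / ρ ^ 2) * (∫ p in Cone E ρ, h ((x.re, x.im) - p)) / 4
      = (2 * k.toReal / (2 * ρ) ^ 2) * ∫ p in Cone E ρ, h ((x.re, x.im) - p) := by
        field_simp
        ring
    _ ≤ _ := mul_le_mul hinv hint hI0 (inv_nonneg.2 hpos.le)

end Pool.Agent.H719R2.Sec
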