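import Pool.Agent.H719R2.Sec.Sector

set_option autoImplicit false

open MeasureTheory Set Filter Topology
open scoped ENNReal

namespace Pool.Agent.H719R2.Sec

/-- the graph of the failure set -/
def failG (F : Fld) (μ : Measure ℝ) (C : ℝ) (R : Finset ℝ) : Set (F.Ω × (ℝ × ℝ)) :=
  {q | ∀ r ∈ R, Av μ r (F.g q.1) q.2 < C}

theorem measurableSet_failG (F : Fld) (μ : Measure ℝ) [IsProbabilityMeasure μ] (C : ℝ)
    (R : Finset ℝ) : MeasurableSet (failG F μ C R) := by
  unfold failG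
  have : {q : F.Ω × (ℝ × ℝ) | ∀ r ∈ R, Av μ r (F.g q.1) q.2 < C} =
      ⋂ r ∈ R, {q : F.Ω × (ℝ × ℝ) | Av μ r (F.g q.1) q.2 < C} := by
    ext q; simp
  rw [this]
  refine Finset.measurableSet_biInter _ fun r _ => ?_
  exact measurableSet_lt (measurable_Av μ r F.g F.meas) measurable_const

/-- selection of a good sample -/
theorem select (F : Fld) (μ : Measure ℝ) [IsProbabilityMeasure μ] (C : ℝ) (R : Finset ℝ)
    (hS : Succ F μ C (1 / 4) R) (ρ : ℝ) (hρ : 0 < ρ) :
    ∃ ω : F.Ω,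
      volume.real {x : ℝ × ℝ | x ∈ Icc ρ (4 * ρ) ×ˢ Icc ρ (4 * ρ) ∧ (ω, x) ∈ failG F μ C R} ≤
        (27 / 8) * ρ ^ 2 ∧
      ∫ x in Icc 0 (4 * ρ) ×ˢ Icc 0 (4 * ρ), F.g ω x ≤ 48 * ρ ^ 2 := by
  set A : Set (ℝ × ℝ) := Icc ρ (4 * ρ) ×ˢ Icc ρ (4 * ρ) with hA
  set Q : Set (ℝ × ℝ) := Icc 0 (4 * ρ) ×ˢ Icc 0 (4 * ρ) with hQ
  have hAm : MeasurableSet A := measurableSet_Icc.prod measurableSet_Icc
  have hQm : MeasurableSet Q := measurableSet_Icc.prod measurableSet_Icc
  have vA : volume.real A = 9 * ρ ^ 2 := by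
    rw [hA, Measure.volume_eq_prod, measureReal_prod_prod, Real.volume_real_Icc_of_le (by linarith)]
    ring
  have vQ : volume.real Q = 16 * ρ ^ 2 := by
    rw [hQ, Measure.volume_eq_prod, measureReal_prod_prod, Real.volume_real_Icc_of_le (by linarith)]
    ring
  have fA : IsFiniteMeasure (volume.restrict A) := ⟨by
    rw [Measure.restrict_apply_univ, hA, Measure.volume_eq_prod, Measure.prod_prod, Real.volume_Icc]
    exact ENNReal.mul_lt_top ENNReal.ofReal_lt_top ENNReal.ofReal_lt_top⟩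
  have fQ : IsFiniteMeasure (volume.restrict Q) := ⟨by
    rw [Measure.restrict_apply_univ, hQ, Measure.volume_eq_prod, Measure.prod_prod, Real.volume_Icc]
    exact ENNReal.mul_lt_top ENNReal.ofReal_lt_top ENNReal.ofReal_lt_top⟩
  have hGm := measurableSet_failG F μ C R
  set φ : F.Ω → ℝ × ℝ → ℝ := fun ω x => indicator (failG F μ C R) (fun _ => (1 : ℝ)) (ω, x) with hφ
  have hφm : Measurable (fun q : F.Ω × (ℝ × ℝ) => φ q.1 q.2) :=
    measurable_const.indicator hGm
  have hφ0 : ∀ ω x, 0 ≤ φ ω x := fun ω x => indicator_nonneg (fun _ _ => zero_le_one) _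
  have hφ1 : ∀ ω x, φ ω x ≤ 1 := fun ω x => by
    simp only [hφ]
    by_cases h : (ω, x) ∈ failG F μ C R
    · rw [indicator_of_mem h]
    · rw [indicator_of_notMem h]; exact zero_le_one
  have hφi : Integrable (fun q : F.Ω × (ℝ × ℝ) => φ q.1 q.2) (F.P.prod (volume.restrict A)) :=
    integrable_bdd hφm 1 fun q => by rw [abs_of_nonneg (hφ0 _ _)]; exact hφ1 _ _
  have hgi : Integrable (fun q : F.Ω × (ℝ × ℝ) => F.g q.1 q.2) (F.P.prod (volume.restrict Q)) :=
    integrable_bdd F.meas F.L fun q => Cl.Fabs F _ _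
  set X : F.Ω → ℝ := fun ω => (∫ x in A, φ ω x) / (9 * ρ ^ 2) +
    (∫ x in Q, F.g ω x) / (128 * ρ ^ 2) with hX
  have i1 : Integrable (fun ω => (∫ x in A, φ ω x) / (9 * ρ ^ 2)) F.P :=
    hφi.integral_prod_left.div_const _
  have i2 : Integrable (fun ω => (∫ x in Q, F.g ω x) / (128 * ρ ^ 2)) F.P :=
    hgi.integral_prod_left.div_const _
  have hXi : Integrable X F.P := i1.add i2
  have hE : ∫ ω, X ω ∂F.P ≤ 3 / 8 := by
    rw [hX, integral_add i1 i2, integral_div, integral_div,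
      integral_integral_swap hφi, integral_integral_swap hgi]
    simp_rw [F.mean]
    have e1 : ∀ x, ∫ ω, φ ω x ∂F.P ≤ 1 / 4 := by
      intro x
      have : (fun ω => φ ω x) = indicator (fail F μ C R x) (fun _ => (1 : ℝ)) := by
        ext ω
        simp only [hφ, indicator]
        rfl
      rw [this, integral_indicator_const _ (measurableSet_fail F μ C R x), smul_eq_mul, mul_one]
      exact hS.2 x
    have e2 : ∫ x in A, (∫ ω, φ ω x ∂F.P) ≤ ∫ _x in A, (1 / 4 : ℝ) := by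
      refine integral_mono_of_nonneg (Eventually.of_forall fun x => integral_nonneg fun ω => hφ0 _ _)
        (integrable_const _) (Eventually.of_forall e1)
    have e3 : ∫ _x in A, (1 / 4 : ℝ) = (9 / 4) * ρ ^ 2 := by
      rw [integral_const, smul_eq_mul, measureReal_restrict_apply_univ, vA]; ring
    have e4 : ∫ _x in Q, (1 : ℝ) = 16 * ρ ^ 2 := by
      rw [integral_const, smul_eq_mul, measureReal_restrict_apply_univ, vQ]; ring
    rw [e4]
    rw [e3] at e2
    have e5 : (∫ x in A, (∫ ω, φ ω x ∂F.P)) / (9 * ρ ^ 2) ≤ (9 / 4) * ρ ^ 2 / (9 * ρ ^ 2) := by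
      gcongr
    have e6 : (9 / 4) * ρ ^ 2 / (9 * ρ ^ 2) = 1 / 4 := by
      rw [div_eq_iff (by positivity)]; ring
    have e7 : 16 * ρ ^ 2 / (128 * ρ ^ 2) = 1 / 8 := by
      rw [div_eq_iff (by positivity)]; ring
    rw [e7]
    linarith
  obtain ⟨ω, hω⟩ := exists_le_integral hXi
  have hω' : (∫ x in A, φ ω x) / (9 * ρ ^ 2) + (∫ x in Q, F.g ω x) / (128 * ρ ^ 2) ≤ 3 / 8 :=
    hω.trans hE
  have n1 : 0 ≤ ∫ x in A, φ ω x := integral_nonneg fun x => hφ0 _ _
  have n2 : 0 ≤ ∫ x in Q, F.g ω x := integral_nonneg fun x => F.nonneg _ _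
  have n3 : 0 ≤ (∫ x in A, φ ω x) / (9 * ρ ^ 2) := by positivity
  have n4 : 0 ≤ (∫ x in Q, F.g ω x) / (128 * ρ ^ 2) := by positivity
  refine ⟨ω, ?_, ?_⟩
  · have h1 : (∫ x in A, φ ω x) / (9 * ρ ^ 2) ≤ 3 / 8 := by linarith
    rw [div_le_iff₀ (by positivity)] at h1
    have h2 : ∫ x in A, φ ω x = volume.real {x : ℝ × ℝ | x ∈ A ∧ (ω, x) ∈ failG F μ C R} := by
      have h3 : (fun x => φ ω x) =
          indicator {x : ℝ × ℝ | (ω, x) ∈ failG F μ C R} (fun _ => (1 : ℝ)) := by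
        ext x
        simp only [hφ, indicator]
        rfl
      have h4 : MeasurableSet {x : ℝ × ℝ | (ω, x) ∈ failG F μ C R} := measurable_prodMk_left hGm
      rw [h3, integral_indicator_const _ h4, smul_eq_mul, mul_one,
        measureReal_restrict_apply h4]
      congr 1
      ext x
      simp only [mem_inter_iff, mem_ofPred_eq]
      exact and_comm
    rw [← h2]
    linarith
  · have h1 : (∫ x in Q, F.g ω x) / (128 * ρ ^ 2) ≤ 3 / 8 := by linarith
    rw [div_le_iff₀ (by positivity)] at h1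
    linarith

/-- **Final contradiction.** -/
theorem final (C : ℝ)
    (H : ∀ E : Set ℝ, MeasurableSet E → E ⊆ Set.Ioc (-Real.pi) Real.pi → 0 < volume E →
      ∀ f : ℂ → ℝ, Integrable f → ∀ α : ℝ, 0 < α →
        volume {x : ℂ | ∃ r : ℝ, 0 < r ∧
            α < (volume.real {z : ℂ | ‖z‖ ≤ r ∧ Complex.arg z ∈ E})⁻¹ *
              ∫ y in {z : ℂ | ‖z‖ ≤ r ∧ Complex.arg z ∈ E}, f (x - y)}
          ≤ ENNReal.ofReal (C / α * ∫ x, |f x|)) : False := by
  obtain ⟨k, hk⟩ : ∃ k : ℕ, 40 * (|C| + 1) < k := exists_nat_gt _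
  have hC0 : 0 ≤ |C| := abs_nonneg C
  have hk0 : (0 : ℝ) < k := by linarith
  obtain ⟨μ, hμp, E, κ, hE, hE1, hμ, F, R, hS⟩ := game_nat k (1 / 4) (by norm_num) (by norm_num)
  obtain ⟨ρ, hρ, hRρ⟩ := exists_high R hS.1
  obtain ⟨ω, hω1, hω2⟩ := select F μ (1 + k - 1 / 4) R hS ρ hρ
  have hμ01 := ae_of_unif μ E κ hE hE1 hμ
  have hEpos : 0 < volume E := by
    rw [pos_iff_ne_zero]
    intro h0
    have h1 := measure_univ (μ := μ)
    rw [hμ] at h1
    simp [h0] at h1
  set A : Set (ℝ × ℝ) := Icc ρ (4 * ρ) ×ˢ Icc ρ (4 * ρ) with hA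
  set Q : Set (ℝ × ℝ) := Icc 0 (4 * ρ) ×ˢ Icc 0 (4 * ρ) with hQ
  have hAm : MeasurableSet A := measurableSet_Icc.prod measurableSet_Icc
  have hQm : MeasurableSet Q := measurableSet_Icc.prod measurableSet_Icc
  set h : ℝ × ℝ → ℝ := indicator Q (F.g ω) with hh
  have hgbm : BM (F.g ω) := F.bm' ω
  have hh0 : ∀ x, 0 ≤ h x := fun x => indicator_nonneg (fun _ _ => F.nonneg _ _) _
  have hbm : BM h := by
    refine ⟨hgbm.1.indicator hQm, F.L, fun x => ?_⟩
    rw [abs_of_nonneg (hh0 x)]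
    by_cases hx : x ∈ Q
    · rw [hh, indicator_of_mem hx]; exact F.le _ _
    · rw [hh, indicator_of_notMem hx]; linarith [Cl.L_pos F]
  set f : ℂ → ℝ := fun z => h (z.re, z.im) with hf
  have hfQ : IsFiniteMeasure (volume.restrict Q) := ⟨by
    rw [Measure.restrict_apply_univ, hQ, Measure.volume_eq_prod, Measure.prod_prod, Real.volume_Icc]
    exact ENNReal.mul_lt_top ENNReal.ofReal_lt_top ENNReal.ofReal_lt_top⟩
  have hhint : Integrable h volume := by
    rw [hh, integrable_indicator_iff hQm]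
    exact hgbm.integrable _
  have hfint : Integrable f volume :=
    (Complex.volume_preserving_equiv_real_prod.integrable_comp_emb
      Complex.measurableEquivRealProd.measurableEmbedding).2 hhint
  have hfnorm : ∫ x, |f x| ≤ 48 * ρ ^ 2 := by
    have e1 : ∀ x, |f x| = h (Complex.measurableEquivRealProd x) := fun x => by
      rw [hf]; exact abs_of_nonneg (hh0 _)
    simp_rw [e1]
    rw [Complex.volume_preserving_equiv_real_prod.integral_comp
      Complex.measurableEquivRealProd.measurableEmbedding, hh, integral_indicator hQm]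
    exact hω2
  -- pointwise estimate
  have hpt : ∀ x : ℂ, (x.re, x.im) ∈ A → (ω, (x.re, x.im)) ∉ failG F μ (1 + k - 1 / 4) R →
      ∃ r : ℝ, 0 < r ∧ (k : ℝ) / 4 < (volume.real (Sct (ang E) r))⁻¹ *
        ∫ y in Sct (ang E) r, f (x - y) := by
    intro x hx hnf
    unfold failG at hnf
    simp only [mem_ofPred_eq, not_forall, not_lt] at hnf
    obtain ⟨r, hr, hAr⟩ := hnf
    have hr0 := hS.1 r hr
    refine ⟨2 * r, by positivity, ?_⟩
    have h1 := sector_avg E hE hE1 κ μ hμ r hr0 h hbm hh0 x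
    have h2 : Av μ r (F.g ω) (x.re, x.im) = Av μ r h (x.re, x.im) := by
      unfold Av
      refine integral_congr_ae ?_
      filter_upwards [nu_ae μ hμ01] with p hp
      have hp1 := hp.1
      have hp2 := hp.2
      rw [mem_Ioc] at hp1
      rw [mem_Icc] at hp2
      have hx' : x.re ∈ Icc ρ (4 * ρ) ∧ x.im ∈ Icc ρ (4 * ρ) := hx
      obtain ⟨hx1, hx2⟩ := hx'
      rw [mem_Icc] at hx1 hx2
      have b1 : 0 ≤ r * p.1 := by have := hp1.1.le; positivity
      have b2 : r * p.1 ≤ ρ := by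
        calc r * p.1 ≤ r * 1 := by gcongr; exact hp1.2
          _ ≤ ρ := by rw [mul_one]; exact hRρ r hr
      have b3 : 0 ≤ r * p.1 * p.2 := mul_nonneg b1 hp2.1
      have b4 : r * p.1 * p.2 ≤ ρ := by
        calc r * p.1 * p.2 ≤ r * p.1 * 1 := mul_le_mul_of_nonneg_left hp2.2 b1
          _ ≤ ρ := by linarith
      have hmem : ((x.re - r * p.1, x.im - r * p.1 * p.2) : ℝ × ℝ) ∈ Q := by
        refine ⟨⟨?_, ?_⟩, ⟨?_, ?_⟩⟩ <;> simp only <;> linarith
      rw [hh, indicator_of_mem hmem]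
    have h3 : (k : ℝ) < Av μ r h (x.re, x.im) := by
      rw [← h2]
      refine lt_of_lt_of_le ?_ hAr
      linarith
    refine lt_of_lt_of_le ?_ h1
    linarith
  have hmain := H (ang E) (measurableSet_ang E hE) (ang_sub E) (ang_pos E hEpos) f hfint
    ((k : ℝ) / 4) (by positivity)
  have hsub : Complex.measurableEquivRealProd ⁻¹'
      (A \ {x : ℝ × ℝ | x ∈ A ∧ (ω, x) ∈ failG F μ (1 + k - 1 / 4) R}) ⊆
      {x : ℂ | ∃ r : ℝ, 0 < r ∧
            (k : ℝ) / 4 < (volume.real {z : ℂ | ‖z‖ ≤ r ∧ Complex.arg z ∈ ang E})⁻¹ *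
              ∫ y in {z : ℂ | ‖z‖ ≤ r ∧ Complex.arg z ∈ ang E}, f (x - y)} := by
    intro x hx
    obtain ⟨hx1, hx2⟩ := hx
    exact hpt x hx1 (fun hc => hx2 ⟨hx1, hc⟩)
  have hlow := (measure_mono hsub).trans hmain
  rw [Complex.volume_preserving_equiv_real_prod.measure_preimage_equiv] at hlow
  -- volume of the good set
  have vA : volume A = ENNReal.ofReal (9 * ρ ^ 2) := by
    rw [hA, Measure.volume_eq_prod, Measure.prod_prod, Real.volume_Icc,
      ← ENNReal.ofReal_mul (by linarith)]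
    congr 1
    ring
  set B : Set (ℝ × ℝ) := {x : ℝ × ℝ | x ∈ A ∧ (ω, x) ∈ failG F μ (1 + k - 1 / 4) R} with hB
  have hBA : B ⊆ A := fun x hx => hx.1
  have hBfin : volume B ≠ ∞ := by
    refine ((measure_mono hBA).trans_lt ?_).ne
    rw [vA]; exact ENNReal.ofReal_lt_top
  have hB1 : volume B ≤ ENNReal.ofReal ((27 / 8) * ρ ^ 2) := by
    rw [← ENNReal.ofReal_toReal hBfin]
    exact ENNReal.ofReal_le_ofReal hω1
  have h5 : ENNReal.ofReal (9 * ρ ^ 2) ≤
      ENNReal.ofReal ((k : ℝ)⁻¹ * (4 * |C|) * (48 * ρ ^ 2)) + ENNReal.ofReal ((27 / 8) * ρ ^ 2) := by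
    rw [← vA]
    calc volume A ≤ volume (A \ B) + volume B := by
          refine (measure_mono ?_).trans (measure_union_le _ _)
          intro x hx
          by_cases hxB : x ∈ B
          · exact Or.inr hxB
          · exact Or.inl ⟨hx, hxB⟩
      _ ≤ _ := by
          refine add_le_add (hlow.trans ?_) hB1
          refine ENNReal.ofReal_le_ofReal ?_
          have hf0 : 0 ≤ ∫ x, |f x| := integral_nonneg fun x => abs_nonneg _
          calc C / ((k : ℝ) / 4) * ∫ x, |f x| = (k : ℝ)⁻¹ * (4 * C) * ∫ x, |f x| := by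
                field_simp
            _ ≤ (k : ℝ)⁻¹ * (4 * |C|) * ∫ x, |f x| := by
                gcongr
                exact le_abs_self C
            _ ≤ (k : ℝ)⁻¹ * (4 * |C|) * (48 * ρ ^ 2) := by gcongr
  rw [← ENNReal.ofReal_add (by positivity) (by positivity),
    ENNReal.ofReal_le_ofReal_iff (by positivity)] at h5
  have h6 : (k : ℝ)⁻¹ * (4 * |C|) ≤ 1 / 10 := by
    rw [inv_mul_le_iff₀ hk0]
    linarith
  have h7 : (k : ℝ)⁻¹ * (4 * |C|) * (48 * ρ ^ 2) ≤ 1 / 10 * (48 * ρ ^ 2) := by gcongr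
  have h8 : 0 < ρ ^ 2 := by positivity
  linarith

end Pool.Agent.H719R2.Sec
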