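import Pool.Agent.H719R2.Sec.Level

set_option autoImplicit false

open MeasureTheory Set Filter Topology
open scoped ENNReal

namespace Pool.Agent.H719R2.Sec

theorem exists_low (R1 : Finset ℝ) (h : ∀ r ∈ R1, 0 < r) : ∃ r0 : ℝ, 0 < r0 ∧ ∀ r ∈ R1, r0 ≤ r := by
  classical
  induction R1 using Finset.induction_on with
  | empty => exact ⟨1, one_pos, by simp⟩
  | insert a s ha ih =>
    obtain ⟨r0, h0, h1⟩ := ih (fun r hr => h r (Finset.mem_insert_of_mem hr))
    refine ⟨min a r0, lt_min (h a (Finset.mem_insert_self _ _)) h0, fun r hr => ?_⟩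
    rw [Finset.mem_insert] at hr
    rcases hr with rfl | hr
    · exact min_le_left _ _
    · exact (min_le_right _ _).trans (h1 r hr)

theorem exists_high (R1 : Finset ℝ) (h : ∀ r ∈ R1, 0 < r) : ∃ R : ℝ, 0 < R ∧ ∀ r ∈ R1, r ≤ R := by
  refine ⟨1 + ∑ r ∈ R1, r, ?_, fun r hr => ?_⟩
  · have := Finset.sum_nonneg (s := R1) (f := fun r : ℝ => r) (fun r hr => (h r hr).le)
    linarith
  · have := Finset.single_le_sum (f := fun s : ℝ => s) (fun s hs => (h s hs).le) hr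
    linarith

theorem exists_big (x1 x2 x3 x4 : ℝ) : ∃ H : ℝ, 1 ≤ H ∧ x1 ≤ H ∧ x2 ≤ H ∧ x3 ≤ H ∧ x4 ≤ H :=
  ⟨max 1 (max x1 (max x2 (max x3 x4))), le_max_left _ _,
    (le_max_left _ _).trans (le_max_right _ _),
    ((le_max_left _ _).trans (le_max_right _ _)).trans (le_max_right _ _),
    (((le_max_left _ _).trans (le_max_right _ _)).trans (le_max_right _ _)).trans (le_max_right _ _),
    (((le_max_right _ _).trans (le_max_right _ _)).trans (le_max_right _ _)).trans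
      (le_max_right _ _)⟩

theorem κ_low (s β : ℝ) (N : ℕ) (hs : 0 < s) (hβ1 : β < 1) (h : N * β = s) :
    s - s ^ 2 ≤ 1 - (1 - β) ^ N := by
  have h1 : 1 - β ≤ Real.exp (-β) := by have := Real.add_one_le_exp (-β); linarith
  have h2 : (1 - β) ^ N ≤ Real.exp (-s) := by
    calc (1 - β) ^ N ≤ (Real.exp (-β)) ^ N := pow_le_pow_left₀ (by linarith) h1 N
      _ = Real.exp (-s) := by rw [← Real.exp_nat_mul]; congr 1; rw [← h]; ring
  have h3 : Real.exp (-s) ≤ 1 - s + s ^ 2 := by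
    rw [Real.exp_neg]
    have h4 : 1 + s ≤ Real.exp s := by have := Real.add_one_le_exp s; linarith
    have h5 : (Real.exp s)⁻¹ ≤ (1 + s)⁻¹ := by gcongr
    refine h5.trans ?_
    rw [inv_le_iff_one_le_mul₀ (by linarith)]
    have : (1 - s + s ^ 2) * (1 + s) = 1 + s ^ 3 := by ring
    rw [this]
    have : 0 < s ^ 3 := by positivity
    linarith
  linarith

theorem m_low (s β : ℝ) (N : ℕ) (hN : 0 < N) (hβ0 : 0 < β) (hβ1 : β < 1) (h : N * β = s) :
    1 - s ≤ (1 - β) ^ (N - 1) := by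
  have h1 := one_add_mul_le_pow (a := -β) (by linarith) (N - 1)
  have h2 : ((N - 1 : ℕ) : ℝ) = N - 1 := by
    rw [Nat.cast_sub (by omega)]; simp
  rw [h2] at h1
  have h3 : 1 + -β = 1 - β := by ring
  rw [h3] at h1
  nlinarith

theorem game_step (C : ℝ) (hC : 1 ≤ C) (h : Game C) : Game (C + 1) := by
  intro ε hε hε1
  obtain ⟨s, hs⟩ : ∃ s, s = ε / (C + 20) := ⟨_, rfl⟩
  have hs0 : 0 < s := by rw [hs]; positivity
  have hsC : s * (C + 20) = ε := by rw [hs]; field_simp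
  have hsC2 : s * C = ε - 20 * s := by linarith
  have hs1 : s ≤ 1 / 20 := by
    have h1 : 0 ≤ s * C := by positivity
    linarith
  obtain ⟨μ, hμp, E, k, hE, hE1, hμ, F, R1, hF⟩ := h s hs0 (by linarith)
  have hμ01 := ae_of_unif μ E k hE hE1 hμ
  obtain ⟨N, hN⟩ : ∃ N : ℕ, 1 / s < N := exists_nat_gt _
  have hNr : (0 : ℝ) < N := lt_trans (by positivity) hN
  have hNpos : 0 < N := by exact_mod_cast hNr
  have hN1 : (1 : ℝ) ≤ N := by exact_mod_cast hNpos
  have hNs : 1 / (N : ℝ) ≤ s := by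
    rw [div_le_iff₀ hNr]
    rw [div_lt_iff₀ hs0] at hN
    linarith
  obtain ⟨β, hβ⟩ : ∃ β, β = s / N := ⟨_, rfl⟩
  have hNβ : N * β = s := by rw [hβ]; field_simp
  have hβ0 : 0 < β := by rw [hβ]; positivity
  have hβs : β ≤ s := by
    rw [hβ, div_le_iff₀ hNr]
    exact le_mul_of_one_le_right hs0.le hN1
  have hβ1 : β < 1 := by linarith
  obtain ⟨Z⟩ := nonempty_cell β hβ0.le hβ1.le
  obtain ⟨r0, hr0, hr0'⟩ := exists_low R1 hF.1
  obtain ⟨R, hR, hR'⟩ := exists_high R1 hF.1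
  obtain ⟨θ, hθ⟩ : ∃ θ, θ = s ^ 2 / (24 * N) := ⟨_, rfl⟩
  have hθ0 : 0 < θ := by rw [hθ]; positivity
  have hθ1 : θ < 1 := by
    rw [hθ, div_lt_one (by positivity)]
    have h1 : s ^ 2 ≤ 1 := pow_le_one₀ hs0.le (by linarith)
    linarith
  obtain ⟨LL, hLL⟩ : ∃ LL, LL = (2 * (F.L / β) ^ N) ^ 2 := ⟨_, rfl⟩
  have hLpos : 1 ≤ F.L := Cl.L_pos F
  have hLL0 : 0 < LL := by rw [hLL]; positivity
  obtain ⟨t1, ht1⟩ : ∃ t1, t1 = s ^ 4 / (16 * N * (R1.card + 1) * LL) := ⟨_, rfl⟩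
  have ht10 : 0 < t1 := by rw [ht1]; positivity
  obtain ⟨M, hM1, hM2, -, -, -⟩ := exists_big (1 / (r0 * (t1 / (2 * N)))) 0 0 0
  obtain ⟨H, hH1, hH2, hH3, hH4, hH5⟩ := exists_big (2 * N / t1) (F.B / (r0 * (t1 / (2 * N))))
    (M * R / θ) (N + 1)
  obtain ⟨Λ, hΛ1, hΛ2, -, -, -⟩ := exists_big (R / θ) 0 0 0
  have hH0 : 0 < H := by linarith
  have hHN : 1 / H < 1 / (N : ℝ) := by
    apply one_div_lt_one_div_of_lt hNr; linarith
  let c : Cl :=
    { N := N
      β := β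
      F := F
      Z := Z
      a := fun i => (i : ℝ) / N
      H := H
      M := M
      Λ := Λ
      hN := hNpos
      hβ0 := hβ0
      hβ1 := hβ1
      ha := fun i => by
        have h1 : ((i : ℕ) : ℝ) ≤ N := by exact_mod_cast i.2.le
        exact ⟨by positivity, by rw [div_le_one hNr]; exact h1⟩
      hsep := fun i j hij => by
        rw [← sub_div, abs_div, abs_of_pos hNr]
        gcongr
        have h1 : (1 : ℤ) ≤ |((i : ℕ) : ℤ) - ((j : ℕ) : ℤ)| := by
          refine Int.one_le_abs ?_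
          intro h0
          apply hij
          apply Fin.ext
          omega
        exact_mod_cast h1
      hH := hH1
      hM := hM1
      hΛ := hΛ1 }
  have hG : c.Geo R1 r0 R t1 θ :=
    { hr0 := hr0
      hr := fun r hr => ⟨hr0' r hr, hR' r hr⟩
      ht1 := ht10
      hθ := hθ0
      hθ1 := hθ1
      c1 := by
        change 1 / H ≤ t1 / (2 * N)
        rw [div_le_iff₀ ht10] at hH2
        rw [div_le_div_iff₀ hH0 (by positivity)]
        linarith
      c2 := by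
        change 1 ≤ M * (r0 * (t1 / (2 * N)))
        rwa [div_le_iff₀ (by positivity)] at hM2
      c3 := by
        change F.B ≤ H * (r0 * (t1 / (2 * N)))
        rwa [div_le_iff₀ (by positivity)] at hH3
      c4 := by
        change R / Λ ≤ θ
        rw [div_le_iff₀ hθ0] at hΛ2
        rw [div_le_iff₀ (by linarith)]
        linarith
      c5 := by
        change M * R / H ≤ θ
        rw [div_le_iff₀ hθ0] at hH4
        rw [div_le_iff₀ (by linarith)]
        linarith }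
  have hin : ∀ i, c.a i + 1 / c.H ≤ 1 := by
    intro i
    change ((i : ℕ) : ℝ) / N + 1 / H ≤ 1
    have h1 : ((i : ℕ) : ℝ) + 1 ≤ N := by
      have : (i : ℕ) + 1 ≤ N := i.2
      exact_mod_cast this
    have h2 : ((i : ℕ) : ℝ) / N + 1 / N ≤ 1 := by
      rw [← add_div, div_le_one hNr]; exact h1
    linarith
  obtain ⟨E', k', hE', hE1', hμ'⟩ := c.mixm_unif μ E k hE hE1 hμ hin hHN
  have hμ'01 := ae_of_unif (c.mixm μ) E' k' hE' hE1' hμ'
  have hκ1 : s - s ^ 2 ≤ c.κ := κ_low s β N hs0 hβ1 hNβ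
  have hs2 : s ^ 2 ≤ s / 20 := by
    rw [sq]
    have := mul_le_mul_of_nonneg_left hs1 hs0.le
    linarith
  have hκ2 : s / 2 ≤ c.κ := by linarith
  have hκ0 : 0 < c.κ := c.κ_pos
  have hm : 1 - s ≤ (1 - c.β) ^ (c.N - 1) := m_low s β N hNpos hβ0 hβ1 hNβ
  have hcNβ : (c.N : ℝ) * c.β = s := hNβ
  have hcN : (1 : ℝ) / (c.N : ℝ) ≤ s := hNs
  have hA0 : C + 1 - ε ≤ c.κ / (c.N * c.β) * (C - s) + (1 - 1 / c.N) * (1 - c.β) ^ (c.N - 1) - s := by
    rw [hcNβ]
    have h1 : 1 - s ≤ c.κ / s := by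
      rw [le_div_iff₀ hs0]
      have : (1 - s) * s = s - s ^ 2 := by ring
      linarith
    have h2 : (1 - s) * (C - s) ≤ c.κ / s * (C - s) := mul_le_mul_of_nonneg_right h1 (by linarith)
    have h3 : (1 - s) * (1 - s) ≤ (1 - 1 / (c.N : ℝ)) * (1 - c.β) ^ (c.N - 1) :=
      mul_le_mul (by linarith) hm (by linarith) (by linarith)
    have h4 : (1 - s) * (C - s) = C - s - s * C + s ^ 2 := by ring
    have h5 : (1 - s) * (1 - s) = 1 - 2 * s + s ^ 2 := by ring
    have h6 : 0 ≤ s ^ 2 := sq_nonneg s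
    linarith
  have herr : c.err s t1 θ s R1.card ≤ 3 * s ^ 2 := by
    unfold Cl.err
    rw [hcNβ]
    change s ^ 2 + s * s + N * (12 * θ) +
      2 * (N * R1.card * ((2 * (F.L / β) ^ N) ^ 2 * (4 * t1) / s ^ 2)) ≤ 3 * s ^ 2
    rw [← hLL]
    have h1 : N * (12 * θ) = s ^ 2 / 2 := by rw [hθ]; field_simp; ring
    have h2 : 2 * (N * R1.card * (LL * (4 * t1) / s ^ 2)) ≤ s ^ 2 / 2 := by
      have h3 : 2 * (N * R1.card * (LL * (4 * t1) / s ^ 2)) =
          (s ^ 2 / 2) * (R1.card / (R1.card + 1)) := by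
        rw [ht1]; field_simp; ring
      rw [h3]
      have h4 : (R1.card : ℝ) / (R1.card + 1) ≤ 1 := by
        rw [div_le_one (by positivity)]; linarith
      have h5 : 0 ≤ s ^ 2 / 2 := by positivity
      exact mul_le_of_le_one_right h5 h4
    rw [h1]
    linarith [sq s]
  have hq0 : 0 ≤ (1 - c.β) ^ c.N := pow_nonneg (by have := c.hβ1; linarith) _
  have hq1 : (1 - c.β) ^ c.N < 1 := by
    have h6 := c.κ_pos
    unfold Cl.κ at h6
    linarith
  obtain ⟨n, hn⟩ := exists_pow_lt_of_lt_one hs0 hq1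
  obtain ⟨F', -, R', hF'⟩ := c.iterate μ hμ01 (C - s) s R1 hF r0 R t1 θ hG hμ'01 s hs0
    (C + 1 - ε) hA0 (3 * s ^ 2) herr (by positivity) n
  refine ⟨c.mixm μ, inferInstance, E', k', hE', hE1', hμ', F', R', hF'.1, fun x => ?_⟩
  refine (hF'.2 x).trans ?_
  have h7 : 3 * s ^ 2 / c.κ ≤ 6 * s := by
    rw [div_le_iff₀ hκ0]
    calc 3 * s ^ 2 = 6 * s * (s / 2) := by ring
      _ ≤ 6 * s * c.κ := by gcongr
  have h8 : 0 ≤ s * C := by positivity
  linarith

theorem game_nat (k : ℕ) : Game (1 + k) := by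
  induction k with
  | zero => simpa using game_one
  | succ k ih =>
    have h1 := game_step (1 + k) (by have : (0 : ℝ) ≤ k := Nat.cast_nonneg k; linarith) ih
    have h2 : (1 : ℝ) + ((k + 1 : ℕ) : ℝ) = 1 + k + 1 := by push_cast; ring
    rw [h2]
    exact h1

end Pool.Agent.H719R2.Sec
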