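import Pool.Agent.H719R2.Sec.Step

set_option autoImplicit false

open MeasureTheory Set Filter Topology
open scoped ENNReal

namespace Pool.Agent.H719R2.Sec

/-- the slope cone of length `ρ` -/
def Cone (E : Set ℝ) (ρ : ℝ) : Set (ℝ × ℝ) := {p | p.1 ∈ Ioc 0 ρ ∧ p.2 / p.1 ∈ E}

theorem measurableSet_Cone (E : Set ℝ) (hE : MeasurableSet E) (ρ : ℝ) :
    MeasurableSet (Cone E ρ) := by
  unfold Cone
  exact (measurable_fst measurableSet_Ioc).inter ((measurable_snd.div measurable_fst) hE)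

theorem Cone_sub (E : Set ℝ) (hE1 : E ⊆ Icc 0 1) (ρ : ℝ) :
    Cone E ρ ⊆ Icc 0 ρ ×ˢ Icc 0 ρ := by
  rintro ⟨u, v⟩ ⟨h1, h2⟩
  simp only [mem_Ioc] at h1
  have h3 := hE1 h2
  simp only [mem_Icc] at h3
  have h4 : v = u * (v / u) := by field_simp [h1.1.ne']
  refine ⟨⟨h1.1.le, h1.2⟩, ?_, ?_⟩
  · simp only; rw [h4]; exact mul_nonneg h1.1.le h3.1
  · simp only; rw [h4]
    calc u * (v / u) ≤ u * 1 := mul_le_mul_of_nonneg_left h3.2 h1.1.le
      _ ≤ ρ := by linarith [h1.2]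

theorem Cone_fin (E : Set ℝ) (hE1 : E ⊆ Icc 0 1) (ρ : ℝ) : volume (Cone E ρ) < ∞ := by
  refine (measure_mono (Cone_sub E hE1 ρ)).trans_lt ?_
  rw [Measure.volume_eq_prod, Measure.prod_prod, Real.volume_Icc]
  exact ENNReal.mul_lt_top ENNReal.ofReal_lt_top ENNReal.ofReal_lt_top

theorem integral_Cone (E : Set ℝ) (hE : MeasurableSet E) (hE1 : E ⊆ Icc 0 1) (ρ : ℝ) (hρ : 0 < ρ)
    (h : ℝ × ℝ → ℝ) (hh : BM h) (x : ℝ × ℝ) :
    ∫ p in Cone E ρ, h (x - p) = ∫ u in (0)..ρ, u * ∫ a in E, h (x.1 - u, x.2 - u * a) := by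
  have hb : BM (fun p : ℝ × ℝ => h (x - p)) := hh.comp (by fun_prop)
  have hint : Integrable (indicator (Cone E ρ) (fun p : ℝ × ℝ => h (x - p))) volume := by
    rw [integrable_indicator_iff (measurableSet_Cone E hE ρ)]
    have : IsFiniteMeasure (volume.restrict (Cone E ρ)) :=
      ⟨by rw [Measure.restrict_apply_univ]; exact Cone_fin E hE1 ρ⟩
    exact hb.integrable _
  rw [← integral_indicator (measurableSet_Cone E hE ρ)]
  rw [Measure.volume_eq_prod] at hint ⊢
  rw [integral_prod _ hint, intervalIntegral.integral_of_le hρ.le,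
    ← integral_indicator measurableSet_Ioc]
  congr 1
  ext u
  by_cases hu : u ∈ Ioc 0 ρ
  · rw [indicator_of_mem hu]
    have e1 : ∀ v : ℝ, indicator (Cone E ρ) (fun p : ℝ × ℝ => h (x - p)) (u, v) =
        (fun a => indicator E (fun a => h (x.1 - u, x.2 - u * a)) a) (v / u) := by
      intro v
      have hu0 : u ≠ 0 := hu.1.ne'
      by_cases hv : v / u ∈ E
      · have : (u, v) ∈ Cone E ρ := ⟨hu, hv⟩
        simp only
        rw [indicator_of_mem this, indicator_of_mem hv]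
        congr 1
        have h2 : u * (v / u) = v := by field_simp
        rw [h2]
        rfl
      · have : (u, v) ∉ Cone E ρ := fun h => hv h.2
        simp only
        rw [indicator_of_notMem this, indicator_of_notMem hv]
    simp_rw [e1]
    rw [Measure.integral_comp_div (fun a => indicator E (fun a => h (x.1 - u, x.2 - u * a)) a) u,
      abs_of_pos hu.1, smul_eq_mul, integral_indicator hE]
  · rw [indicator_of_notMem hu]
    have e1 : ∀ v : ℝ, indicator (Cone E ρ) (fun p : ℝ × ℝ => h (x - p)) (u, v) = 0 := by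
      intro v
      rw [indicator_of_notMem]
      exact fun h => hu h.1
    simp_rw [e1]
    simp

theorem Av_eq_Cone (E : Set ℝ) (hE : MeasurableSet E) (hE1 : E ⊆ Icc 0 1) (k : ℝ≥0∞)
    (μ : Measure ℝ) [IsProbabilityMeasure μ] (hμ : μ = k • volume.restrict E) (ρ : ℝ) (hρ : 0 < ρ)
    (h : ℝ × ℝ → ℝ) (hh : BM h) (x : ℝ × ℝ) :
    Av μ ρ h x = (2 * k.toReal / ρ ^ 2) * ∫ p in Cone E ρ, h (x - p) := by
  rw [integral_Cone E hE hE1 ρ hρ h hh x]
  unfold Av nu
  have hb : BM (fun p : ℝ × ℝ => h (x.1 - ρ * p.1, x.2 - ρ * p.1 * p.2)) := hh.comp (by fun_prop)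
  rw [integral_prod _ (hb.integrable _)]
  have e1 : ∀ s : ℝ, ∫ a, h (x.1 - ρ * s, x.2 - ρ * s * a) ∂μ =
      k.toReal * ∫ a in E, h (x.1 - ρ * s, x.2 - ρ * s * a) := by
    intro s
    rw [hμ, integral_smul_measure, smul_eq_mul]
  simp only
  simp_rw [e1]
  unfold lam
  rw [integral_withDensity_eq_integral_toReal_smul (by fun_prop)
    (Eventually.of_forall fun _ => ENNReal.ofReal_lt_top)]
  have e2 : ∫ s in Ioc (0 : ℝ) 1, (ENNReal.ofReal (2 * s)).toReal •
      (k.toReal * ∫ a in E, h (x.1 - ρ * s, x.2 - ρ * s * a)) =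
      ∫ s in Ioc (0 : ℝ) 1, (2 * k.toReal / ρ) *
        ((ρ * s) * ∫ a in E, h (x.1 - ρ * s, x.2 - ρ * s * a)) := by
    refine setIntegral_congr_fun measurableSet_Ioc fun s hs => ?_
    have hs0 : 0 ≤ 2 * s := by have := hs.1; positivity
    rw [ENNReal.toReal_ofReal hs0, smul_eq_mul]
    field_simp
  rw [e2, ← intervalIntegral.integral_of_le zero_le_one, intervalIntegral.integral_const_mul,
    intervalIntegral.integral_comp_mul_left
      (fun u => u * ∫ a in E, h (x.1 - u, x.2 - u * a)) hρ.ne', mul_zero, mul_one, smul_eq_mul]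
  field_simp

theorem vol_Cone (E : Set ℝ) (hE : MeasurableSet E) (hE1 : E ⊆ Icc 0 1) (k : ℝ≥0∞)
    (μ : Measure ℝ) [IsProbabilityMeasure μ] (hμ : μ = k • volume.restrict E) (ρ : ℝ) (hρ : 0 < ρ) :
    (2 * k.toReal / ρ ^ 2) * volume.real (Cone E ρ) = 1 := by
  have h := Av_eq_Cone E hE hE1 k μ hμ ρ hρ (fun _ => 1) (BM.const 1) (0, 0)
  simp only [Av, integral_const, probReal_univ, smul_eq_mul, mul_one, MeasurableSet.univ,
    measureReal_restrict_apply, univ_inter] at h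
  exact h.symm

end Pool.Agent.H719R2.Sec
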